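import Mathlib

/-! First derivative test for a concave phase, with no smoothness. -/

set_option autoImplicit false

open Set

namespace Pool.Agent.Lib.MP_eb34a4_co.MG

theorem chord_abel (E : ℕ → ℂ) (r : ℕ → ℝ) (hE : ∀ j, ‖E j‖ = 1) (M : ℕ)
    (hr : ∀ j < M, r j ≤ r (j + 1)) :
    ‖∑ j ∈ Finset.range (M + 1), (E (j + 1) - E j) * r j - E (M + 1) * r M‖ ≤
      |r 0| + (r M - r 0) := by
  induction M with
  | zero =>
    rw [Finset.sum_range_one, show (E (0 + 1) - E 0) * r 0 - E (0 + 1) * r 0 = -(E 0 * r 0) by ring,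
      norm_neg, norm_mul, hE, Complex.norm_real, Real.norm_eq_abs]
    linarith
  | succ M ih =>
    have h1 := ih fun j hj => hr j (by omega)
    have h2 := hr M (by omega)
    have h3 : ‖E (M + 1) * ((r (M + 1) - r M : ℝ) : ℂ)‖ = r (M + 1) - r M := by
      rw [norm_mul, hE, Complex.norm_real, Real.norm_eq_abs, abs_of_nonneg (by linarith), one_mul]
    have h4 : ∑ j ∈ Finset.range (M + 1 + 1), (E (j + 1) - E j) * r j - E (M + 1 + 1) * r (M + 1) =
        (∑ j ∈ Finset.range (M + 1), (E (j + 1) - E j) * r j - E (M + 1) * r M) -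
          E (M + 1) * ((r (M + 1) - r M : ℝ) : ℂ) := by
      rw [Finset.sum_range_succ _ (M + 1)]; push_cast; ring
    rw [h4]
    have h5 := norm_sub_le
      (∑ j ∈ Finset.range (M + 1), (E (j + 1) - E j) * r j - E (M + 1) * r M)
      (E (M + 1) * ((r (M + 1) - r M : ℝ) : ℂ))
    linarith

theorem chord_exp_sub (u v : ℝ) :
    ‖Complex.exp ((u : ℂ) * Complex.I) - Complex.exp ((v : ℂ) * Complex.I)‖ ≤ |u - v| := by
  have h : Complex.exp ((u : ℂ) * Complex.I) - Complex.exp ((v : ℂ) * Complex.I) =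
      Complex.exp ((v : ℂ) * Complex.I) * (Complex.exp (Complex.I * ((u - v : ℝ) : ℂ)) - 1) := by
    rw [mul_sub, ← Complex.exp_add, mul_one]
    congr 2
    push_cast; ring
  rw [h, norm_mul, Complex.norm_exp_ofReal_mul_I, one_mul]
  exact Real.norm_exp_I_mul_ofReal_sub_one_le

theorem chord_piece (G : ℝ → ℝ) (hc : Continuous G) (x y β ε : ℝ) (hxy : x < y) (hβ : β ≠ 0)
    (hne : G y - G x ≠ 0) (hε : ∀ t ∈ Icc x y, |G t - G x| ≤ ε) :
    ‖(∫ t in x..y, Complex.exp (((β * G t : ℝ) : ℂ) * Complex.I)) -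
      (Complex.exp (((β * G y : ℝ) : ℂ) * Complex.I) -
        Complex.exp (((β * G x : ℝ) : ℂ) * Complex.I)) *
        ((1 / ((G y - G x) / (y - x)) : ℝ) : ℂ) / (β * Complex.I)‖ ≤ |β| * (2 * ε) * (y - x) := by
  obtain ⟨s, hs⟩ : ∃ s, s = (G y - G x) / (y - x) := ⟨_, rfl⟩
  have hp : 0 < y - x := by linarith
  have hs0 : s ≠ 0 := hs ▸ div_ne_zero hne hp.ne'
  have hsy : G x + s * (y - x) = G y := by rw [hs, div_mul_cancel₀ _ hp.ne']; ring
  have hβc : (β : ℂ) ≠ 0 := Complex.ofReal_ne_zero.2 hβ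
  have hsc : (s : ℂ) ≠ 0 := Complex.ofReal_ne_zero.2 hs0
  have hk : (β : ℂ) * s * Complex.I ≠ 0 := mul_ne_zero (mul_ne_zero hβc hsc) Complex.I_ne_zero
  have e1 : ∀ t : ℝ, Complex.exp (((β * (G x + s * (t - x)) : ℝ) : ℂ) * Complex.I) =
      Complex.exp (((β * (G x - s * x) : ℝ) : ℂ) * Complex.I) *
        Complex.exp ((β : ℂ) * s * Complex.I * t) := fun t => by
    rw [← Complex.exp_add]; congr 1; push_cast; ring
  have hl : (∫ t in x..y, Complex.exp (((β * (G x + s * (t - x)) : ℝ) : ℂ) * Complex.I)) =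
      (Complex.exp (((β * G y : ℝ) : ℂ) * Complex.I) -
        Complex.exp (((β * G x : ℝ) : ℂ) * Complex.I)) * ((1 / s : ℝ) : ℂ) / (β * Complex.I) := by
    have e2 := e1 y
    have e3 := e1 x
    rw [hsy] at e2
    rw [sub_self, mul_zero, add_zero] at e3
    simp_rw [e1]
    rw [intervalIntegral.integral_const_mul, integral_exp_mul_complex hk, e2, e3]
    have := Complex.I_ne_zero
    push_cast
    field_simp
  rw [← hs, ← hl, ← intervalIntegral.integral_sub (Continuous.intervalIntegrable (by fun_prop) _ _)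
    (Continuous.intervalIntegrable (by fun_prop) _ _)]
  refine (intervalIntegral.norm_integral_le_of_norm_le_const (C := |β| * (2 * ε))
    fun t ht => ?_).trans (by rw [abs_of_pos hp])
  rw [uIoc_of_le hxy.le] at ht
  refine (chord_exp_sub _ _).trans ?_
  rw [← mul_sub, abs_mul]
  refine mul_le_mul_of_nonneg_left ?_ (abs_nonneg _)
  have h1 := hε t ⟨ht.1.le, ht.2⟩
  have h2 := hε y ⟨hxy.le, le_rfl⟩
  have h3 : |s * (t - x)| ≤ |G y - G x| := by
    rw [← hsy, add_sub_cancel_left, abs_mul, abs_mul, abs_of_pos hp,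
      abs_of_pos (by linarith [ht.1] : 0 < t - x)]
    exact mul_le_mul_of_nonneg_left (by linarith [ht.2]) (abs_nonneg _)
  have h4 := abs_sub (G t - G x) (s * (t - x))
  rw [show G t - (G x + s * (t - x)) = G t - G x - s * (t - x) by ring]
  linarith

theorem vdc_chord (G : ℝ → ℝ) (a b σ β : ℝ) (hab : a ≤ b) (hσ : 0 < σ) (hβ : β ≠ 0)
    (hc : Continuous G) (hG : ConcaveOn ℝ (Icc a b) G)
    (hs : (∀ x y, a ≤ x → x < y → y ≤ b → σ * (y - x) ≤ G y - G x) ∨
      (∀ x y, a ≤ x → x < y → y ≤ b → G y - G x ≤ -(σ * (y - x)))) :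
    ‖∫ t in a..b, Complex.exp (((β * G t : ℝ) : ℂ) * Complex.I)‖ ≤ 4 / (|β| * σ) := by
  have hb0 : 0 < |β| := abs_pos.2 hβ
  rcases hab.eq_or_lt with rfl | hab'
  · rw [intervalIntegral.integral_same, norm_zero]; positivity
  have hp : 0 < b - a := by linarith
  refine le_of_forall_pos_le_add fun η hη => ?_
  obtain ⟨ε, hε, hεη⟩ : ∃ ε, 0 < ε ∧ |β| * (2 * ε) * (b - a) = η :=
    ⟨η / (|β| * 2 * (b - a)), by positivity, by field_simp⟩
  obtain ⟨δ, hδ, hu⟩ := Metric.uniformContinuousOn_iff_le.1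
    (isCompact_Icc.uniformContinuousOn_of_continuous (hc.continuousOn (s := Icc a b))) ε hε
  obtain ⟨M, hM⟩ := exists_nat_gt ((b - a) / δ)
  obtain ⟨h, hh, hN⟩ : ∃ h, 0 < h ∧ ((M : ℝ) + 1) * h = b - a :=
    ⟨(b - a) / (M + 1), by positivity, by field_simp⟩
  have hhδ : h ≤ δ := by
    rw [div_lt_iff₀ hδ] at hM
    nlinarith [(Nat.cast_nonneg M : (0 : ℝ) ≤ M)]
  obtain ⟨t, ht⟩ : ∃ t : ℕ → ℝ, ∀ j, t j = a + j * h := ⟨_, fun _ => rfl⟩
  have t0 : t 0 = a := by simp [ht]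
  have tN : t (M + 1) = b := by rw [ht]; push_cast; linarith
  have ts : ∀ j, t (j + 1) - t j = h := fun j => by rw [ht, ht]; push_cast; ring
  have tl : ∀ j, t j < t (j + 1) := fun j => by linarith [ts j]
  have ta : ∀ j, a ≤ t j := fun j => by rw [ht]; nlinarith [(Nat.cast_nonneg j : (0 : ℝ) ≤ j)]
  have tb : ∀ j ≤ M + 1, t j ≤ b := fun j hj => by
    have : (j : ℝ) ≤ M + 1 := by exact_mod_cast hj
    rw [ht]; nlinarith
  obtain ⟨s, hsd⟩ : ∃ s : ℕ → ℝ, ∀ j, s j = (G (t (j + 1)) - G (t j)) / (t (j + 1) - t j) :=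
    ⟨_, fun _ => rfl⟩
  have sg : (∀ j ≤ M, σ ≤ s j) ∨ (∀ j ≤ M, s j ≤ -σ) := by
    refine hs.imp (fun H j hj => ?_) (fun H j hj => ?_)
    · rw [hsd, le_div_iff₀ (by linarith [tl j])]
      exact H _ _ (ta j) (tl j) (tb _ (by omega))
    · rw [hsd, div_le_iff₀ (by linarith [tl j]), neg_mul]
      exact H _ _ (ta j) (tl j) (tb _ (by omega))
  have sa : ∀ j ≤ M, σ ≤ |s j| := fun j hj =>
    sg.elim (fun H => (H j hj).trans (le_abs_self _))
      fun H => (le_neg.1 (H j hj)).trans (neg_le_abs _)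
  have sm : ∀ j < M, s (j + 1) ≤ s j := fun j hj => by
    rw [hsd, hsd]
    exact hG.slope_anti_adjacent ⟨ta j, tb _ (by omega)⟩ ⟨ta _, tb _ (by omega)⟩ (tl j) (tl _)
  have rm : ∀ j < M, 1 / s j ≤ 1 / s (j + 1) := fun j hj =>
    sg.elim (fun H => one_div_le_one_div_of_le (hσ.trans_le (H _ (by omega))) (sm j hj))
      fun H => one_div_le_one_div_of_neg_of_le (by linarith [H j hj.le]) (sm j hj)
  have ra : ∀ j ≤ M, |1 / s j| ≤ 1 / σ := fun j hj => by
    rw [abs_div, abs_one]; exact one_div_le_one_div_of_le hσ (sa j hj)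
  obtain ⟨E, hE⟩ : ∃ E : ℕ → ℂ, ∀ j, E j = Complex.exp (((β * G (t j) : ℝ) : ℂ) * Complex.I) :=
    ⟨_, fun _ => rfl⟩
  have En : ∀ j, ‖E j‖ = 1 := fun j => by rw [hE, Complex.norm_exp_ofReal_mul_I]
  have h1 := chord_abel E (fun j => 1 / s j) En M rm
  have h2 : ‖∑ j ∈ Finset.range (M + 1), (E (j + 1) - E j) * ((1 / s j : ℝ) : ℂ)‖ ≤ 4 / σ := by
    have h3 := norm_sub_norm_le
      (∑ j ∈ Finset.range (M + 1), (E (j + 1) - E j) * ((1 / s j : ℝ) : ℂ))
      (E (M + 1) * ((1 / s M : ℝ) : ℂ))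
    rw [norm_mul, En, Complex.norm_real, Real.norm_eq_abs, one_mul] at h3
    have h4 := ra 0 (by omega)
    have h5 := ra M le_rfl
    have h6 := le_abs_self (1 / s M)
    have h7 := neg_le_abs (1 / s 0)
    have h8 : 4 / σ = 4 * (1 / σ) := by ring
    linarith
  have h3 : ‖∑ j ∈ Finset.range (M + 1),
      (E (j + 1) - E j) * ((1 / s j : ℝ) : ℂ) / (β * Complex.I)‖ ≤ 4 / (|β| * σ) := by
    rw [← Finset.sum_div, norm_div, norm_mul, Complex.norm_I, mul_one, Complex.norm_real,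
      Real.norm_eq_abs, mul_comm |β|, ← div_div]
    exact div_le_div_of_nonneg_right h2 hb0.le
  have h4 : ‖∑ j ∈ Finset.range (M + 1),
      ((∫ x in (t j)..(t (j + 1)), Complex.exp (((β * G x : ℝ) : ℂ) * Complex.I)) -
        (E (j + 1) - E j) * ((1 / s j : ℝ) : ℂ) / (β * Complex.I))‖ ≤ η := by
    refine (norm_sum_le_of_le _ (n := fun _ => |β| * (2 * ε) * h) fun j hj => ?_).trans ?_
    · have hj' : j ≤ M := by have := Finset.mem_range.1 hj; omega
      rw [hE, hE, hsd, ← ts j]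
      refine chord_piece G hc _ _ β ε (tl j) hβ (fun e => ?_) fun x hx => ?_
      · have := sa j hj'
        rw [hsd, e, zero_div, abs_zero] at this
        linarith
      · rw [← Real.dist_eq]
        refine hu x ⟨(ta j).trans hx.1, hx.2.trans (tb _ (by omega))⟩ _ ⟨ta j, tb _ (by omega)⟩ ?_
        rw [Real.dist_eq, abs_of_nonneg (by linarith [hx.1])]
        linarith [hx.2, ts j]
    · rw [Finset.sum_const, Finset.card_range, nsmul_eq_mul, ← hεη, ← hN]
      push_cast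
      exact le_of_eq (by ring)
  rw [Finset.sum_sub_distrib, intervalIntegral.sum_integral_adjacent_intervals
    fun k _ => Continuous.intervalIntegrable (by fun_prop) _ _, t0, tN] at h4
  have h5 := norm_sub_norm_le (∫ x in a..b, Complex.exp (((β * G x : ℝ) : ℂ) * Complex.I))
    (∑ j ∈ Finset.range (M + 1), (E (j + 1) - E j) * ((1 / s j : ℝ) : ℂ) / (β * Complex.I))
  linarith

end Pool.Agent.Lib.MP_eb34a4_co.MG
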