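import Mathlib
import Pool.Agent.Lib.MP_eb34a4_co.MG.Chord

/-! Decay of the Fourier transform of a concave arc close to a parabola. -/

set_option autoImplicit false

open Set

namespace Pool.Agent.Lib.MP_eb34a4_co.MG

theorem Arc_right {G : ℝ → ℝ} {ρ r lam t0 θ x y : ℝ}
    (hG : ConcaveOn ℝ (Icc (-(2 * ρ)) (2 * ρ)) G) (hr : 0 < r) (hrρ : r ≤ ρ) (hlam : 0 < lam)
    (hθ : 4 * θ ≤ lam * r ^ 2)
    (hn : ∀ t ∈ Icc (-(2 * ρ)) (2 * ρ), |G t - 2 * lam * t0 * t + lam * t ^ 2| ≤ θ)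
    (h1 : -ρ ≤ x) (h2 : x < y) (h3 : y ≤ ρ) (h4 : t0 + r ≤ x) :
    G y - G x ≤ -(lam * r / 2 * (y - x)) := by
  have m1 : x - r ∈ Icc (-(2 * ρ)) (2 * ρ) := ⟨by linarith, by linarith⟩
  have m2 : x ∈ Icc (-(2 * ρ)) (2 * ρ) := ⟨by linarith, by linarith⟩
  have m3 : y ∈ Icc (-(2 * ρ)) (2 * ρ) := ⟨by linarith, by linarith⟩
  have s1 := hG.slope_anti_adjacent m1 m3 (show x - r < x by linarith) h2
  have s2 : (G x - G (x - r)) / (x - (x - r)) ≤ -(lam * r / 2) := by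
    rw [sub_sub_cancel, div_le_iff₀ hr]
    have e1 := (abs_le.1 (hn _ m1)).1
    have e2 := (abs_le.1 (hn _ m2)).2
    have e3 := mul_nonneg (mul_pos hlam hr).le (sub_nonneg.2 h4)
    nlinarith
  have s3 := (div_le_iff₀ (sub_pos.2 h2)).1 (s1.trans s2)
  linarith

theorem Arc_left {G : ℝ → ℝ} {ρ r lam t0 θ x y : ℝ}
    (hG : ConcaveOn ℝ (Icc (-(2 * ρ)) (2 * ρ)) G) (hr : 0 < r) (hrρ : r ≤ ρ) (hlam : 0 < lam)
    (hθ : 4 * θ ≤ lam * r ^ 2)
    (hn : ∀ t ∈ Icc (-(2 * ρ)) (2 * ρ), |G t - 2 * lam * t0 * t + lam * t ^ 2| ≤ θ)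
    (h1 : -ρ ≤ x) (h2 : x < y) (h3 : y ≤ ρ) (h4 : y ≤ t0 - r) :
    lam * r / 2 * (y - x) ≤ G y - G x := by
  have m1 : x ∈ Icc (-(2 * ρ)) (2 * ρ) := ⟨by linarith, by linarith⟩
  have m2 : y ∈ Icc (-(2 * ρ)) (2 * ρ) := ⟨by linarith, by linarith⟩
  have m3 : y + r ∈ Icc (-(2 * ρ)) (2 * ρ) := ⟨by linarith, by linarith⟩
  have s1 := hG.slope_anti_adjacent m1 m3 h2 (show y < y + r by linarith)
  have s2 : lam * r / 2 ≤ (G (y + r) - G y) / (y + r - y) := by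
    rw [add_sub_cancel_left, le_div_iff₀ hr]
    have e1 := (abs_le.1 (hn _ m3)).1
    have e2 := (abs_le.1 (hn _ m2)).2
    have e3 := mul_nonneg (mul_pos hlam hr).le (sub_nonneg.2 h4)
    nlinarith
  exact (le_div_iff₀ (sub_pos.2 h2)).1 (s2.trans s1)

theorem vdc_arc (H : ℝ → ℝ) (ρ r lam μ θ : ℝ) (hc : Continuous H)
    (hH : ConcaveOn ℝ (Icc (-(2 * ρ)) (2 * ρ)) H) (hr : 0 < r) (hrρ : r ≤ ρ) (hlam : 0 < lam)
    (hθ : 4 * θ ≤ lam * r ^ 2)
    (hnear : ∀ t ∈ Icc (-(2 * ρ)) (2 * ρ), |H t + μ * t + lam * t ^ 2| ≤ θ)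
    (α β : ℝ) (hβ : β ≠ 0) :
    ‖∫ t in (-ρ)..ρ, Complex.exp (((α * t + β * H t : ℝ) : ℂ) * Complex.I)‖ ≤
      2 * r + 16 / (|β| * lam * r) := by
  obtain ⟨G, hGd⟩ : ∃ G : ℝ → ℝ, G = fun t => H t + α / β * t := ⟨_, rfl⟩
  obtain ⟨t0, ht0⟩ : ∃ t0 : ℝ, 2 * lam * t0 = α / β - μ :=
    ⟨(α / β - μ) / (2 * lam), mul_div_cancel₀ _ (by positivity)⟩
  have hGc : Continuous G := by
    rw [hGd]
    fun_prop
  have hG : ConcaveOn ℝ (Icc (-(2 * ρ)) (2 * ρ)) G := by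
    rw [hGd]
    refine hH.add ⟨convex_Icc _ _, fun x _ y _ a b _ _ _ => le_of_eq ?_⟩
    simp only [smul_eq_mul]
    ring
  have hn : ∀ t ∈ Icc (-(2 * ρ)) (2 * ρ), |G t - 2 * lam * t0 * t + lam * t ^ 2| ≤ θ :=
    fun t ht => by
      have e : G t - 2 * lam * t0 * t + lam * t ^ 2 = H t + μ * t + lam * t ^ 2 := by
        rw [hGd, ht0]
        ring
      rw [e]
      exact hnear t ht
  have he : (fun t => Complex.exp (((α * t + β * H t : ℝ) : ℂ) * Complex.I)) =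
      fun t => Complex.exp (((β * G t : ℝ) : ℂ) * Complex.I) := by
    funext t
    have e : α * t + β * H t = β * G t := by
      rw [hGd]
      field_simp
      ring
    rw [e]
  rw [he]
  have hi : ∀ a b : ℝ, IntervalIntegrable
      (fun t => Complex.exp (((β * G t : ℝ) : ℂ) * Complex.I)) MeasureTheory.volume a b :=
    fun a b => Continuous.intervalIntegrable (by fun_prop) a b
  obtain ⟨a, ha⟩ : ∃ a, a = max (-ρ) (min ρ (t0 - r)) := ⟨_, rfl⟩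
  obtain ⟨b, hb⟩ : ∃ b, b = max (-ρ) (min ρ (t0 + r)) := ⟨_, rfl⟩
  have hρ : -ρ ≤ ρ := by linarith
  have a1 : -ρ ≤ a := ha ▸ le_max_left _ _
  have a2 : a ≤ ρ := ha ▸ max_le hρ (min_le_left _ _)
  have b1 : -ρ ≤ b := hb ▸ le_max_left _ _
  have b2 : b ≤ ρ := hb ▸ max_le hρ (min_le_left _ _)
  have ab : |b - a| ≤ 2 * r := by
    rw [ha, hb, max_comm (-ρ), max_comm (-ρ)]
    refine (abs_max_sub_max_le_abs _ _ _).trans ((abs_min_sub_min_le_max _ _ _ _).trans ?_)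
    rw [sub_self, abs_zero, show t0 + r - (t0 - r) = 2 * r by ring, abs_of_pos (by positivity)]
    exact max_le (by positivity) le_rfl
  have hσ : 0 < lam * r / 2 := by positivity
  have i1 := vdc_chord G (-ρ) a _ β a1 hσ hβ hGc
    (hG.subset (Icc_subset_Icc (by linarith) (by linarith)) (convex_Icc _ _))
    (Or.inl fun x y h1 h2 h3 => Arc_left hG hr hrρ hlam hθ hn h1 h2 (h3.trans a2) (by
      rw [ha] at h3
      rcases le_max_iff.1 h3 with h4 | h4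
      · linarith
      · exact h4.trans (min_le_right _ _)))
  have i3 := vdc_chord G b ρ _ β b2 hσ hβ hGc
    (hG.subset (Icc_subset_Icc (by linarith) (by linarith)) (convex_Icc _ _))
    (Or.inr fun x y h1 h2 h3 => Arc_right hG hr hrρ hlam hθ hn (b1.trans h1) h2 h3 (by
      rw [hb] at h1
      rcases min_le_iff.1 ((le_max_right _ _).trans h1) with h4 | h4
      · linarith
      · exact h4))
  have i2 : ‖∫ t in a..b, Complex.exp (((β * G t : ℝ) : ℂ) * Complex.I)‖ ≤ 1 * |b - a| :=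
    intervalIntegral.norm_integral_le_of_norm_le_const fun t _ =>
      (Complex.norm_exp_ofReal_mul_I _).le
  rw [← intervalIntegral.integral_add_adjacent_intervals (hi (-ρ) a) (hi a ρ),
    ← intervalIntegral.integral_add_adjacent_intervals (hi a b) (hi b ρ)]
  have e : 16 / (|β| * lam * r) = 4 / (|β| * (lam * r / 2)) + 4 / (|β| * (lam * r / 2)) := by
    have := abs_pos.2 hβ
    field_simp
    norm_num
  refine (norm_add_le _ _).trans ((add_le_add le_rfl (norm_add_le _ _)).trans ?_)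
  rw [e]
  linarith

end Pool.Agent.Lib.MP_eb34a4_co.MG
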