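import Mathlib

/-! The autocorrelation of a set of finite measure is a Fourier integral of a nonnegative weight. -/

set_option autoImplicit false

open MeasureTheory
open scoped RealInnerProductSpace

namespace Pool.Agent.Lib.MP_eb34a4_co.MG

variable {E : Type} [NormedAddCommGroup E] [InnerProductSpace ℝ E] [FiniteDimensional ℝ E]
  [MeasurableSpace E] [BorelSpace E]

open FourierTransform in
theorem spec_ae (G : E → ℂ) (h1 : Integrable G) (h2 : MemLp G 2) :
    (𝓕 (h2.toLp G) : Lp ℂ 2 (volume : Measure E)) =ᵐ[volume] 𝓕 G := by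
  apply ae_eq_of_integral_contDiff_smul_eq
  · exact (Lp.memLp _).locallyIntegrable (by norm_num)
  · exact (VectorFourier.fourierIntegral_continuous Real.continuous_fourierChar
      (continuous_inner (𝕜 := ℝ)) h1).locallyIntegrable
  intro g hg hgc
  have hg₁ : HasCompactSupport (Complex.ofRealCLM ∘ g) := hgc.comp_left rfl
  have hg₂ : ContDiff ℝ (⊤ : ℕ∞) (Complex.ofRealCLM ∘ g) := by fun_prop
  set ψ : SchwartzMap E ℂ := hg₁.toSchwartzMap hg₂ with hψ
  have e1 := congrArg (fun F : TemperedDistribution E ℂ => F ψ)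
    (Lp.fourier_toTemperedDistribution_eq (h2.toLp G))
  simp only [TemperedDistribution.fourier_apply, Lp.toTemperedDistribution_apply] at e1
  have e2 : ∫ x, (𝓕 ψ) x • (h2.toLp G) x = ∫ x, (𝓕 (ψ : E → ℂ)) x • G x := by
    apply integral_congr_ae
    filter_upwards [h2.coeFn_toLp] with x hx
    rw [hx, SchwartzMap.fourier_coe]
  have e3 : ∫ x, (𝓕 (ψ : E → ℂ)) x • G x = ∫ x, ψ x • (𝓕 G) x := by
    have := VectorFourier.integral_fourierIntegral_smul_eq_flip (μ := (volume : Measure E))
      (ν := (volume : Measure E)) (L := innerₗ E) (e := Real.fourierChar) (f := (ψ : E → ℂ))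
      (g := G) Real.continuous_fourierChar (continuous_inner (𝕜 := ℝ)) ψ.integrable h1
    rw [flip_innerₗ] at this
    exact this
  have e4 : ∀ (K : E → ℂ), ∫ x, g x • K x = ∫ x, ψ x • K x := by
    intro K
    congr 1
  rw [e4, e4, ← e1, e2, e3]

open FourierTransform in
theorem spec_inner (G K : E → ℂ) (g1 : Integrable G) (g2 : MemLp G 2) (k1 : Integrable K)
    (k2 : MemLp K 2) :
    ∫ ξ, (𝓕 K) ξ * (starRingEnd ℂ) ((𝓕 G) ξ) = ∫ x, K x * (starRingEnd ℂ) (G x) := by
  have h := Lp.inner_fourier_eq (g2.toLp G) (k2.toLp K)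
  rw [L2.inner_def, L2.inner_def] at h
  refine (integral_congr_ae ?_).trans (h.trans (integral_congr_ae ?_))
  · filter_upwards [spec_ae G g1 g2, spec_ae K k1 k2] with x a b
    rw [a, b, RCLike.inner_apply]
  · filter_upwards [g2.coeFn_toLp, k2.coeFn_toLp] with x a b
    rw [a, b, RCLike.inner_apply]

open FourierTransform in
theorem spec_shift (G : E → ℂ) (v ξ : E) : 𝓕 (fun x => G (x + v)) ξ =
    Complex.exp (((2 * Real.pi * ⟪ξ, v⟫ : ℝ) : ℂ) * Complex.I) * 𝓕 G ξ := by
  have h := congrFun (VectorFourier.fourierIntegral_comp_add_right Real.fourierChar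
    (volume : Measure E) (innerₗ E) G v) ξ
  rw [Circle.smul_def, Real.fourierChar_apply, innerₗ_apply_apply, real_inner_comm] at h
  exact h

theorem spectral (A : Set E) (hA : NullMeasurableSet A volume) (hfin : volume A ≠ ⊤) :
    ∃ W : E → ℝ, Integrable W ∧ (∀ ξ, 0 ≤ W ξ) ∧ ∀ v : E,
      (((volume (A ∩ {x | x + v ∈ A})).toReal : ℝ) : ℂ) =
        ∫ ξ, (W ξ : ℂ) * Complex.exp (((2 * Real.pi * ⟪ξ, v⟫ : ℝ) : ℂ) * Complex.I) := by
  obtain ⟨G, hG⟩ : ∃ G : E → ℂ, G = A.indicator fun _ => 1 := ⟨_, rfl⟩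
  have hp : ∀ p : ENNReal, MemLp G p := by
    intro p
    rw [hG]
    refine ((memLp_indicator_const p (measurableSet_toMeasurable volume A) (1 : ℂ)
      (Or.inr (by rwa [measure_toMeasurable]))).ae_eq ?_)
    exact indicator_ae_eq_of_ae_eq_set hA.toMeasurable_ae_eq
  have g1 : Integrable G := memLp_one_iff_integrable.1 (hp 1)
  have g2 := hp 2
  have f2 : MemLp (FourierTransform.fourier G) 2 := (Lp.memLp _).ae_eq (spec_ae G g1 g2)
  refine ⟨fun ξ => ‖FourierTransform.fourier G ξ‖ ^ 2, f2.integrable_norm_pow two_ne_zero,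
    fun ξ => by positivity, fun v => ?_⟩
  have mp := measurePreserving_add_right (volume : Measure E) v
  have h := spec_inner G (fun x => G (x + v)) g1 g2 (g1.comp_add_right v)
    (g2.comp_measurePreserving mp)
  have hB : NullMeasurableSet (A ∩ {x | x + v ∈ A}) volume :=
    hA.inter (hA.preimage mp.quasiMeasurePreserving)
  have e1 : (fun x => G (x + v) * (starRingEnd ℂ) (G x)) =
      (A ∩ {x | x + v ∈ A}).indicator fun _ => (1 : ℂ) := by
    funext x
    rw [hG]
    by_cases a : x ∈ A <;> by_cases b : x + v ∈ A <;> simp [Set.indicator, a, b]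
  rw [e1, integral_indicator₀ hB, setIntegral_const, Complex.real_smul, mul_one] at h
  refine h.symm.trans (integral_congr_ae (ae_of_all _ fun ξ => ?_))
  simp only [spec_shift]
  rw [mul_assoc, Complex.mul_conj', mul_comm]
  push_cast
  rfl

end Pool.Agent.Lib.MP_eb34a4_co.MG
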