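import Mathlib
import Pool.Agent.Lib.MP_eb34a4_co.MG.Arc
import Pool.Agent.Lib.MP_eb34a4_co.MG.Spec

/-! A set whose autocorrelation vanishes on a curved arc has small autocorrelation near the arc. -/

set_option autoImplicit false

open MeasureTheory Set
open scoped RealInnerProductSpace

namespace Pool.Agent.Lib.MP_eb34a4_co.MG

variable {E : Type} [NormedAddCommGroup E] [InnerProductSpace ℝ E] [FiniteDimensional ℝ E]
  [MeasurableSpace E] [BorelSpace E]

theorem key_meas (W : E → ℝ) (hW : Integrable W) (v : E) :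
    AEStronglyMeasurable
      (fun ξ : E => (W ξ : ℂ) * Complex.exp (((2 * Real.pi * ⟪ξ, v⟫ : ℝ) : ℂ) * Complex.I))
      volume := by
  have h1 : AEStronglyMeasurable (fun ξ : E => (W ξ : ℂ)) volume :=
    Complex.continuous_ofReal.comp_aestronglyMeasurable hW.aestronglyMeasurable
  have h2 : Continuous
      (fun ξ : E => Complex.exp (((2 * Real.pi * ⟪ξ, v⟫ : ℝ) : ℂ) * Complex.I)) := by
    fun_prop
  exact h1.mul h2.aestronglyMeasurable

theorem key_norm (w s : ℝ) : ‖(w : ℂ) * Complex.exp ((s : ℂ) * Complex.I)‖ = ‖w‖ := by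
  rw [norm_mul, Complex.norm_exp_ofReal_mul_I, mul_one, Complex.norm_real]

theorem key_integrable (W : E → ℝ) (hW : Integrable W) (v : E) :
    Integrable
      (fun ξ : E => (W ξ : ℂ) * Complex.exp (((2 * Real.pi * ⟪ξ, v⟫ : ℝ) : ℂ) * Complex.I)) :=
  Integrable.mono' hW.norm (key_meas W hW v)
    (Filter.Eventually.of_forall fun _ => (key_norm _ _).le)

theorem key_cont_int (W : E → ℝ) (hW : Integrable W) :
    Continuous fun v : E =>
      ∫ ξ, (W ξ : ℂ) * Complex.exp (((2 * Real.pi * ⟪ξ, v⟫ : ℝ) : ℂ) * Complex.I) := by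
  refine continuous_of_dominated (bound := fun ξ => ‖W ξ‖) (key_meas W hW) ?_ hW.norm ?_
  · intro v
    exact Filter.Eventually.of_forall fun ξ => (key_norm _ _).le
  · refine Filter.Eventually.of_forall fun ξ => ?_
    fun_prop

theorem auto_continuous (A : Set E) (hA : NullMeasurableSet A volume) (hfin : volume A ≠ ⊤) :
    Continuous fun v : E => (volume (A ∩ {x | x + v ∈ A})).toReal := by
  obtain ⟨W, hW, -, hs⟩ := spectral A hA hfin
  have h : (fun v : E => (volume (A ∩ {x | x + v ∈ A})).toReal) = fun v : E =>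
      (∫ ξ, (W ξ : ℂ) * Complex.exp (((2 * Real.pi * ⟪ξ, v⟫ : ℝ) : ℂ) * Complex.I)).re := by
    funext v
    rw [← hs v, Complex.ofReal_re]
  rw [h]
  exact Complex.continuous_re.comp (key_cont_int W hW)

theorem key_sub_one_two (s : ℝ) : ‖Complex.exp ((s : ℂ) * Complex.I) - 1‖ ≤ 2 := by
  have h := norm_sub_le (Complex.exp ((s : ℂ) * Complex.I)) 1
  rw [Complex.norm_exp_ofReal_mul_I, norm_one] at h
  linarith

theorem key_sub_one_abs (s : ℝ) : ‖Complex.exp ((s : ℂ) * Complex.I) - 1‖ ≤ |s| := by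
  have h := Real.norm_exp_I_mul_ofReal_sub_one_le (x := s)
  rw [mul_comm] at h
  simpa [Real.norm_eq_abs] using h

theorem key_mult (H : ℝ → ℝ) (ρ r lam μ θ : ℝ) (hc : Continuous H)
    (hH : ConcaveOn ℝ (Icc (-(2 * ρ)) (2 * ρ)) H) (hr : 0 < r) (hrρ : r ≤ ρ) (hlam : 0 < lam)
    (hθ : 4 * θ ≤ lam * r ^ 2)
    (hnear : ∀ t ∈ Icc (-(2 * ρ)) (2 * ρ), |H t + μ * t + lam * t ^ 2| ≤ θ) (α β z : ℝ) :
    ‖Complex.exp (((β * z : ℝ) : ℂ) * Complex.I) - 1‖ *
      ‖∫ t in (-ρ)..ρ, Complex.exp (((α * t + β * H t : ℝ) : ℂ) * Complex.I)‖ ≤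
      4 * r + 16 * |z| / (lam * r) := by
  have hlr : 0 < lam * r := mul_pos hlam hr
  by_cases hβ : β = 0
  · subst hβ
    have h0 : (0 : ℝ) ≤ 4 * r + 16 * |z| / (lam * r) := by positivity
    simpa using h0
  · have h1 := vdc_arc H ρ r lam μ θ hc hH hr hrρ hlam hθ hnear α β hβ
    have h2 := key_sub_one_two (β * z)
    have h3 := key_sub_one_abs (β * z)
    have hb : 0 < |β| := abs_pos.mpr hβ
    have h4 : 0 ≤ 16 / (|β| * lam * r) := by positivity
    have h5 : |β * z| * (16 / (|β| * lam * r)) = 16 * |z| / (lam * r) := by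
      rw [abs_mul]
      field_simp
    have hn := norm_nonneg (Complex.exp (((β * z : ℝ) : ℂ) * Complex.I) - 1)
    have h6 := mul_le_mul_of_nonneg_left h1 hn
    have h7 := mul_le_mul_of_nonneg_right h3 h4
    have h8 := mul_le_mul_of_nonneg_right h2 (by positivity : (0 : ℝ) ≤ 2 * r)
    rw [mul_add] at h6
    linarith

theorem key_line (A : Set E) (hA : NullMeasurableSet A volume) (hfin : volume A ≠ ⊤)
    (u f e : E) (H : ℝ → ℝ) (ρ r lam μ θ : ℝ) (hc : Continuous H)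
    (hH : ConcaveOn ℝ (Icc (-(2 * ρ)) (2 * ρ)) H) (hr : 0 < r) (hrρ : r ≤ ρ) (hlam : 0 < lam)
    (hθ : 4 * θ ≤ lam * r ^ 2)
    (hnear : ∀ t ∈ Icc (-(2 * ρ)) (2 * ρ), |H t + μ * t + lam * t ^ 2| ≤ θ)
    (hzero : ∀ t ∈ Icc (-ρ) ρ, volume (A ∩ {x | x + (u + t • f + H t • e) ∈ A}) = 0) (z : ℝ) :
    ∫ t in (-ρ)..ρ, (volume (A ∩ {x | x + (u + t • f + (H t + z) • e) ∈ A})).toReal ≤
      (4 * r + 16 * |z| / (lam * r)) * (volume A).toReal := by
  obtain ⟨W, hW, hW0, hs⟩ := spectral A hA hfin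
  have hρ : -ρ ≤ ρ := by linarith
  have htot : ∫ ξ, W ξ = (volume A).toReal := by
    have h := hs 0
    simp only [add_zero, inner_zero_right, mul_zero, Complex.ofReal_zero, zero_mul,
      Complex.exp_zero, mul_one, ofPred_mem_eq, inter_self] at h
    rw [integral_complex_ofReal] at h
    exact (Complex.ofReal_injective h).symm
  let c : E → ℂ := fun ξ => (W ξ : ℂ) * Complex.exp (((2 * Real.pi * ⟪ξ, u⟫ : ℝ) : ℂ) * Complex.I) *
    (Complex.exp (((2 * Real.pi * ⟪ξ, e⟫ * z : ℝ) : ℂ) * Complex.I) - 1)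
  let g : ℝ → E → ℂ := fun t ξ =>
    Complex.exp (((2 * Real.pi * ⟪ξ, f⟫ * t + 2 * Real.pi * ⟪ξ, e⟫ * H t : ℝ) : ℂ) * Complex.I)
  have hcn : ∀ ξ, ‖c ξ‖ =
      W ξ * ‖Complex.exp (((2 * Real.pi * ⟪ξ, e⟫ * z : ℝ) : ℂ) * Complex.I) - 1‖ := by
    intro ξ
    simp only [c]
    rw [norm_mul, key_norm, Real.norm_of_nonneg (hW0 ξ)]
  have hgn : ∀ t ξ, ‖g t ξ‖ = 1 := fun t ξ => Complex.norm_exp_ofReal_mul_I _
  have hpt : ∀ t ∈ Icc (-ρ) ρ,
      (((volume (A ∩ {x | x + (u + t • f + (H t + z) • e) ∈ A})).toReal : ℝ) : ℂ) =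
        ∫ ξ, c ξ * g t ξ := by
    intro t ht
    have h1 := hs (u + t • f + (H t + z) • e)
    have h2 := hs (u + t • f + H t • e)
    rw [hzero t ht, ENNReal.toReal_zero, Complex.ofReal_zero] at h2
    have h3 := integral_sub (key_integrable W hW (u + t • f + (H t + z) • e))
      (key_integrable W hW (u + t • f + H t • e))
    rw [← h1, ← h2, sub_zero] at h3
    rw [← h3]
    refine integral_congr_ae (Filter.Eventually.of_forall fun ξ => ?_)
    simp only [c, g, inner_add_right, inner_smul_right]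
    have e1 : (((2 * Real.pi * (⟪ξ, u⟫ + t * ⟪ξ, f⟫ + (H t + z) * ⟪ξ, e⟫) : ℝ) : ℂ) * Complex.I) =
        ((2 * Real.pi * ⟪ξ, u⟫ : ℝ) : ℂ) * Complex.I +
          ((2 * Real.pi * ⟪ξ, e⟫ * z : ℝ) : ℂ) * Complex.I +
          ((2 * Real.pi * ⟪ξ, f⟫ * t + 2 * Real.pi * ⟪ξ, e⟫ * H t : ℝ) : ℂ) * Complex.I := by
      push_cast
      ring
    have e2 : (((2 * Real.pi * (⟪ξ, u⟫ + t * ⟪ξ, f⟫ + H t * ⟪ξ, e⟫) : ℝ) : ℂ) * Complex.I) =
        ((2 * Real.pi * ⟪ξ, u⟫ : ℝ) : ℂ) * Complex.I +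
          ((2 * Real.pi * ⟪ξ, f⟫ * t + 2 * Real.pi * ⟪ξ, e⟫ * H t : ℝ) : ℂ) * Complex.I := by
      push_cast
      ring
    rw [e1, e2, Complex.exp_add, Complex.exp_add, Complex.exp_add]
    ring
  have hcm : AEStronglyMeasurable c volume := by
    have h2 : Continuous (fun ξ : E =>
        Complex.exp (((2 * Real.pi * ⟪ξ, e⟫ * z : ℝ) : ℂ) * Complex.I) - 1) := by
      fun_prop
    exact (key_meas W hW u).mul h2.aestronglyMeasurable
  have hci : Integrable c := by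
    refine Integrable.mono' (hW.mul_const 2) hcm (Filter.Eventually.of_forall fun ξ => ?_)
    rw [hcn]
    exact mul_le_mul_of_nonneg_left (key_sub_one_two _) (hW0 ξ)
  have hgc : Continuous (fun p : ℝ × E => g p.1 p.2) := by
    simp only [g]
    fun_prop
  have hint : Integrable (Function.uncurry fun t ξ => c ξ * g t ξ)
      ((volume.restrict (uIoc (-ρ) ρ)).prod (volume : Measure E)) := by
    have : IsFiniteMeasure (volume.restrict (uIoc (-ρ) ρ)) := by
      rw [uIoc_of_le hρ]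
      infer_instance
    have h1 : Integrable (fun p : ℝ × E => c p.2)
        ((volume.restrict (uIoc (-ρ) ρ)).prod (volume : Measure E)) := hci.comp_snd _
    refine Integrable.mono' h1.norm (h1.aestronglyMeasurable.mul hgc.aestronglyMeasurable)
      (Filter.Eventually.of_forall fun p => ?_)
    show ‖c p.2 * g p.1 p.2‖ ≤ ‖c p.2‖
    rw [norm_mul, hgn, mul_one]
  have hmain : ((∫ t in (-ρ)..ρ,
      (volume (A ∩ {x | x + (u + t • f + (H t + z) • e) ∈ A})).toReal : ℝ) : ℂ) =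
        ∫ ξ, c ξ * ∫ t in (-ρ)..ρ, g t ξ := by
    rw [← intervalIntegral.integral_ofReal]
    rw [intervalIntegral.integral_congr (g := fun t => ∫ ξ, c ξ * g t ξ)
      (fun t ht => hpt t (by rwa [uIcc_of_le hρ] at ht))]
    rw [intervalIntegral_integral_swap hint]
    refine integral_congr_ae (Filter.Eventually.of_forall fun ξ => ?_)
    exact intervalIntegral.integral_const_mul _ _
  have hbound : ‖∫ ξ, c ξ * ∫ t in (-ρ)..ρ, g t ξ‖ ≤
      ∫ ξ, (4 * r + 16 * |z| / (lam * r)) * W ξ := by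
    refine norm_integral_le_of_norm_le (hW.const_mul _) (Filter.Eventually.of_forall fun ξ => ?_)
    rw [norm_mul, hcn, mul_assoc, mul_comm (4 * r + 16 * |z| / (lam * r))]
    exact mul_le_mul_of_nonneg_left
      (key_mult H ρ r lam μ θ hc hH hr hrρ hlam hθ hnear _ _ z) (hW0 ξ)
  rw [integral_const_mul, htot, ← hmain, Complex.norm_real, Real.norm_eq_abs] at hbound
  exact (le_abs_self _).trans hbound

end Pool.Agent.Lib.MP_eb34a4_co.MG
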