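import Mathlib
import Pool.Agent.Lib.MP_eb34a4_co.Typical

/-! The space of symmetric convex bodies is a Baire space. -/

set_option autoImplicit false

namespace Pool.Agent.Lib.MP_eb34a4_co.MG

open TopologicalSpace Metric

variable {E : Type} [NormedAddCommGroup E] [InnerProductSpace ℝ E] [FiniteDimensional ℝ E]

omit [InnerProductSpace ℝ E] [FiniteDimensional ℝ E] in
theorem baire_near {K K' : NonemptyCompacts E} {ε : ℝ} (h : dist K K' < ε) :
    (∀ x ∈ (K : Set E), ∃ y ∈ (K' : Set E), dist x y < ε) ∧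
      ∀ y ∈ (K' : Set E), ∃ x ∈ (K : Set E), dist x y < ε := by
  have hfin : hausdorffEDist (K : Set E) (K' : Set E) ≠ ⊤ :=
    hausdorffEDist_ne_top_of_nonempty_of_bounded K.nonempty K'.nonempty K.isCompact.isBounded
      K'.isCompact.isBounded
  rw [NonemptyCompacts.dist_eq] at h
  exact ⟨fun x hx => exists_dist_lt_of_hausdorffDist_lt hx h hfin,
    fun y hy => exists_dist_lt_of_hausdorffDist_lt' hy h hfin⟩

omit [FiniteDimensional ℝ E] in
theorem baire_closed : IsClosed {K : NonemptyCompacts E |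
    Convex ℝ (K : Set E) ∧ ∀ x ∈ (K : Set E), -x ∈ (K : Set E)} := by
  refine isClosed_of_closure_subset fun K hK => ?_
  have hK' := Metric.mem_closure_iff.1 hK
  have hcl : ∀ z : E, (∀ ε : ℝ, 0 < ε → ∃ w ∈ (K : Set E), dist z w < ε) → z ∈ (K : Set E) :=
    fun z hz => K.isCompact.isClosed.closure_subset (Metric.mem_closure_iff.2 hz)
  refine ⟨fun x hx y hy a b ha hb hab => hcl _ fun ε hε => ?_, fun x hx => hcl _ fun ε hε => ?_⟩
  · obtain ⟨K', hC, hd⟩ := hK' (ε / 2) (by linarith)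
    obtain ⟨h1, h2⟩ := baire_near hd
    obtain ⟨x', hx', hxx⟩ := h1 x hx
    obtain ⟨y', hy', hyy⟩ := h1 y hy
    obtain ⟨w, hw, hww⟩ := h2 _ (hC.1 hx' hy' ha hb hab)
    refine ⟨w, hw, ?_⟩
    have e1 : dist (a • x + b • y) (a • x' + b • y') ≤ a * dist x x' + b * dist y y' := by
      refine (dist_add_add_le _ _ _ _).trans ?_
      rw [dist_smul₀, dist_smul₀, Real.norm_of_nonneg ha, Real.norm_of_nonneg hb]
    have e2 : a * dist x x' ≤ a * (ε / 2) := mul_le_mul_of_nonneg_left hxx.le ha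
    have e3 : b * dist y y' ≤ b * (ε / 2) := mul_le_mul_of_nonneg_left hyy.le hb
    have e4 : a * (ε / 2) + b * (ε / 2) = ε / 2 := by rw [← add_mul, hab, one_mul]
    have e5 := dist_triangle_right (a • x + b • y) w (a • x' + b • y')
    linarith
  · obtain ⟨K', hC, hd⟩ := hK' (ε / 2) (by linarith)
    obtain ⟨h1, h2⟩ := baire_near hd
    obtain ⟨x', hx', hxx⟩ := h1 x hx
    obtain ⟨w, hw, hww⟩ := h2 _ (hC.2 x' hx')
    refine ⟨w, hw, ?_⟩
    have e1 : dist (-x) (-x') = dist x x' := dist_neg_neg x x'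
    have e5 := dist_triangle_right (-x) w (-x')
    linarith

omit [FiniteDimensional ℝ E] in
theorem baire_open : IsOpen {K : {K : NonemptyCompacts E |
    Convex ℝ (K : Set E) ∧ ∀ x ∈ (K : Set E), -x ∈ (K : Set E)} |
      (0 : E) ∈ interior (K.1 : Set E)} := by
  refine Metric.isOpen_iff.2 fun K hK => ?_
  obtain ⟨r, hr, hb⟩ := Metric.mem_nhds_iff.1 (mem_interior_iff_mem_nhds.1 hK)
  refine ⟨r / 2, by linarith, fun K' hK' => ?_⟩
  have hd : dist K.1 K'.1 < r / 2 := by
    rw [dist_comm]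
    exact hK'
  have h := ball_subset_of_near (K'.1 : Set E) (K.1 : Set E) K'.1.nonempty K'.1.isCompact K'.2.1
    (r / 2) (by linarith) (baire_near hd).1 0 (by
      rw [mul_div_cancel₀ r two_ne_zero]
      exact hb)
  exact mem_interior.2 ⟨ball 0 (r / 2), h, isOpen_ball, mem_ball_self (by linarith)⟩

theorem baire_body : BaireSpace (Body E) := by
  have h0 : CompleteSpace E := FiniteDimensional.complete ℝ E
  have h1 := (baire_closed (E := E)).completeSpace_coe
  have h2 := (baire_open (E := E)).baireSpace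
  let φ : {K : {K : NonemptyCompacts E |
      Convex ℝ (K : Set E) ∧ ∀ x ∈ (K : Set E), -x ∈ (K : Set E)} |
        (0 : E) ∈ interior (K.1 : Set E)} ≃ₜ Body E :=
    { toFun := fun K => ⟨K.1.1, K.1.2.1, K.1.2.2, K.2⟩
      invFun := fun K => ⟨⟨K.1, K.2.1, K.2.2.1⟩, K.2.2.2⟩
      left_inv := fun _ => rfl
      right_inv := fun _ => rfl
      continuous_toFun := (continuous_subtype_val.comp continuous_subtype_val).subtype_mk _
      continuous_invFun := (continuous_subtype_val.subtype_mk _).subtype_mk _ }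
  exact φ.baireSpace

end Pool.Agent.Lib.MP_eb34a4_co.MG
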