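import Mathlib

/-! The upper boundary of a planar section of a compact convex set is a concave graph. -/

set_option autoImplicit false

open Set

namespace Pool.Agent.Lib.MP_eb34a4_co.MG

variable {E : Type} [NormedAddCommGroup E] [InnerProductSpace ℝ E]

theorem exists_height (K : Set E) (hK : IsCompact K) (hc : Convex ℝ K) (u f e : E) (Q : ℝ → ℝ)
    (ρ θ : ℝ) (hρ : 0 < ρ)
    (hin : ∀ t ∈ Icc (-(3 * ρ)) (3 * ρ), u + t • f + (Q t - θ) • e ∈ K)
    (hout : ∀ t ∈ Icc (-(3 * ρ)) (3 * ρ), ∀ z, Q t + θ < z → u + t • f + z • e ∉ K) :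
    ∃ H : ℝ → ℝ, Continuous H ∧ ConcaveOn ℝ (Icc (-(2 * ρ)) (2 * ρ)) H ∧
      ∀ t ∈ Icc (-(2 * ρ)) (2 * ρ), |H t - Q t| ≤ θ ∧ u + t • f + H t • e ∈ frontier K := by
  obtain ⟨S, hS⟩ : ∃ S : ℝ → Set ℝ, ∀ t z, z ∈ S t ↔ u + t • f + z • e ∈ K :=
    ⟨fun t => {z | u + t • f + z • e ∈ K}, fun _ _ => Iff.rfl⟩
  have hub : ∀ t ∈ Icc (-(3 * ρ)) (3 * ρ), Q t + θ ∈ upperBounds (S t) := fun t ht z hz =>
    not_lt.1 fun c => hout t ht z c ((hS t z).1 hz)
  have hne : ∀ t ∈ Icc (-(3 * ρ)) (3 * ρ), Q t - θ ∈ S t := fun t ht => (hS _ _).2 (hin t ht)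
  have hmem : ∀ t ∈ Icc (-(3 * ρ)) (3 * ρ), u + t • f + sSup (S t) • e ∈ K := fun t ht => by
    refine (hS _ _).1 (IsClosed.csSup_mem ?_ ⟨_, hne t ht⟩ ⟨_, hub t ht⟩)
    rw [show S t = (fun z : ℝ => u + t • f + z • e) ⁻¹' K from Set.ext (hS t)]
    exact hK.isClosed.preimage (by fun_prop)
  have hcon : ConcaveOn ℝ (Icc (-(3 * ρ)) (3 * ρ)) fun t => sSup (S t) := by
    refine ⟨convex_Icc _ _, fun x hx y hy a b ha hb hab => ?_⟩
    refine le_csSup ⟨_, hub _ (convex_Icc _ _ hx hy ha hb hab)⟩ ((hS _ _).2 ?_)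
    have h1 := hc (hmem x hx) (hmem y hy) ha hb hab
    have h2 : u + (a • x + b • y) • f + (a • sSup (S x) + b • sSup (S y)) • e =
        a • (u + x • f + sSup (S x) • e) + b • (u + y • f + sSup (S y) • e) := by
      obtain rfl : b = 1 - a := by linarith
      simp only [smul_eq_mul]
      module
    rwa [h2]
  have hsub : Icc (-(2 * ρ)) (2 * ρ) ⊆ Ioo (-(3 * ρ)) (3 * ρ) :=
    Icc_subset_Ioo (by linarith) (by linarith)
  have hle : -(2 * ρ) ≤ 2 * ρ := by linarith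
  have hcont : ContinuousOn (fun t => sSup (S t)) (Icc (-(2 * ρ)) (2 * ρ)) :=
    hcon.continuousOn_interior.mono (by rwa [interior_Icc])
  have heq : ∀ t ∈ Icc (-(2 * ρ)) (2 * ρ), sSup (S (projIcc _ _ hle t)) = sSup (S t) :=
    fun t ht => by rw [projIcc_of_mem hle ht]
  refine ⟨fun t => sSup (S (projIcc _ _ hle t)),
    hcont.comp_continuous (continuous_subtype_val.comp continuous_projIcc) fun t => Subtype.prop _,
    (hcon.subset (hsub.trans Ioo_subset_Icc_self) (convex_Icc _ _)).congr fun t ht =>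
      (heq t ht).symm, fun t ht => ?_⟩
  have ht3 := Ioo_subset_Icc_self (hsub ht)
  simp only [heq t ht]
  have h1 := le_csSup ⟨_, hub t ht3⟩ (hne t ht3)
  have h2 := csSup_le ⟨_, hne t ht3⟩ (hub t ht3)
  refine ⟨abs_le.2 ⟨by linarith, by linarith⟩, subset_closure (hmem t ht3), fun hi => ?_⟩
  have h3 : ∀ᶠ z in nhds (sSup (S t)), u + t • f + z • e ∈ K :=
    (by fun_prop : Continuous fun z : ℝ => u + t • f + z • e).continuousAt.eventually_mem
      (mem_interior_iff_mem_nhds.1 hi)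
  obtain ⟨z, hz, h4⟩ := h3.exists_gt
  exact absurd (le_csSup ⟨_, hub t ht3⟩ ((hS _ _).2 h4)) (not_le.2 hz)

end Pool.Agent.Lib.MP_eb34a4_co.MG
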