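import Mathlib

/-! An acute set of 2 ^ n + 1 points in dimension n + 1 with distinct heights. -/

set_option autoImplicit false

open scoped RealInnerProductSpace

namespace Pool.Agent.Lib.MP_eb34a4_co.MG

theorem acute_mul {a P Q : ℝ} (ha : 0 ≤ a) (h1 : -a ≤ P) (h2 : P ≤ 2) (h3 : -a ≤ Q) (h4 : Q ≤ 2) :
    -(2 * a) ≤ P * Q := by
  rcases le_total 0 P with hP | hP <;> rcases le_total 0 Q with hQ | hQ
  · linarith [mul_nonneg hP hQ]
  · nlinarith [mul_nonneg hP (show 0 ≤ Q + a by linarith),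
      mul_nonneg ha (show 0 ≤ 2 - P by linarith)]
  · nlinarith [mul_nonneg hQ (show 0 ≤ P + a by linarith),
      mul_nonneg ha (show 0 ≤ 2 - Q by linarith)]
  · linarith [mul_nonneg_of_nonpos_of_nonpos hP hQ]

theorem acute_term {U V W x y z : ℝ} (hU : 0 ≤ U ∧ U ≤ 1) (hV : 0 ≤ V ∧ V ≤ 1)
    (hW : 0 ≤ W ∧ W ≤ 1) (hx : x = 1 ∨ x = -1) (hy : y = 1 ∨ y = -1) (hz : z = 1 ∨ z = -1) :
    -(2 * (1 - U)) ≤ (U * x - V * y) * (U * x - W * z) := by
  have e : (U * x - V * y) * (U * x - W * z) = (U - V * (x * y)) * (U - W * (x * z)) := by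
    rcases hx with rfl | rfl <;> ring
  rw [e]
  obtain ⟨u0, u1⟩ := hU
  obtain ⟨v0, v1⟩ := hV
  obtain ⟨w0, w1⟩ := hW
  refine acute_mul (by linarith) ?_ ?_ ?_ ?_
  · rcases hx with rfl | rfl <;> rcases hy with rfl | rfl <;> linarith
  · rcases hx with rfl | rfl <;> rcases hy with rfl | rfl <;> linarith
  · rcases hx with rfl | rfl <;> rcases hz with rfl | rfl <;> linarith
  · rcases hx with rfl | rfl <;> rcases hz with rfl | rfl <;> linarith

theorem acute_unit {u : ℝ} (h0 : 0 < u) (h1 : u ≤ 1) : 0 ≤ 1 - u ^ 2 ∧ 1 - u ^ 2 ≤ 1 :=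
  ⟨by nlinarith, by nlinarith⟩

theorem acute_top {n : ℕ} {D u v w : ℝ} {x y z : Fin n → ℝ} (hD : 8 * (n : ℝ) < D ^ 2)
    (u0 : 0 < u) (u1 : u ≤ 1) (v0 : 0 < v) (hv : 2 * v ≤ u) (w0 : 0 < w) (hw : 2 * w ≤ u)
    (hx : ∀ l, x l = 1 ∨ x l = -1) (hy : ∀ l, y l = 1 ∨ y l = -1) (hz : ∀ l, z l = 1 ∨ z l = -1) :
    0 < (D * u - D * v) * (D * u - D * w) + ∑ l, ((1 - u ^ 2) * x l - (1 - v ^ 2) * y l) *
      ((1 - u ^ 2) * x l - (1 - w ^ 2) * z l) := by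
  have h1 := Finset.sum_le_sum (s := Finset.univ) fun l _ => acute_term (acute_unit u0 u1)
    (acute_unit v0 (by linarith)) (acute_unit w0 (by linarith)) (hx l) (hy l) (hz l)
  rw [Finset.sum_const, Finset.card_univ, Fintype.card_fin, nsmul_eq_mul] at h1
  have h2 : u / 2 * (u / 2) ≤ (u - v) * (u - w) :=
    mul_le_mul (by linarith) (by linarith) (by linarith) (by linarith)
  have h3 := mul_le_mul_of_nonneg_left h2 (sq_nonneg D)
  have h4 := mul_lt_mul_of_pos_right hD (pow_pos u0 2)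
  linarith

theorem acute_side {n : ℕ} {D τ u v w : ℝ} {x y z : Fin n → ℝ} (hD : τ * D ^ 2 = 1 / 4)
    (hτ : τ ≤ 1 / 2) (hn : 8 * (n : ℝ) * τ ^ 2 < 1)
    (v0 : 0 < v) (v1 : v ≤ 1) (u0 : 0 < u) (hu : u ≤ τ * v) (w0 : 0 < w) (hw : w ≤ τ * v)
    (hx : ∀ l, x l = 1 ∨ x l = -1) (hy : ∀ l, y l = 1 ∨ y l = -1) (hz : ∀ l, z l = 1 ∨ z l = -1)
    (hl : ∃ l, z l = -x l) :
    0 < (D * u - D * v) * (D * u - D * w) + ∑ l, ((1 - u ^ 2) * x l - (1 - v ^ 2) * y l) *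
      ((1 - u ^ 2) * x l - (1 - w ^ 2) * z l) := by
  obtain ⟨l, hl⟩ := hl
  have hv : τ * v ≤ v / 2 := by nlinarith
  have h1 := Finset.single_le_sum (s := Finset.univ)
    (f := fun l => ((1 - u ^ 2) * x l - (1 - v ^ 2) * y l) *
      ((1 - u ^ 2) * x l - (1 - w ^ 2) * z l) + 2 * u ^ 2) (fun l _ => by
        have := acute_term (acute_unit u0 (by linarith)) (acute_unit v0 v1)
          (acute_unit w0 (by linarith)) (hx l) (hy l) (hz l)
        linarith) (Finset.mem_univ l)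
  rw [Finset.sum_add_distrib, Finset.sum_const, Finset.card_univ, Fintype.card_fin,
    nsmul_eq_mul] at h1
  have hu2 : u ^ 2 ≤ (τ * v) ^ 2 := pow_le_pow_left₀ u0.le hu 2
  have hu3 : u ^ 2 ≤ (v / 2) ^ 2 := pow_le_pow_left₀ u0.le (hu.trans hv) 2
  have hu4 : u ^ 2 ≤ (1 / 2) ^ 2 := pow_le_pow_left₀ u0.le (by linarith) 2
  have hw4 : w ^ 2 ≤ (1 / 2) ^ 2 := pow_le_pow_left₀ w0.le (by linarith) 2
  have hv2 := (acute_unit v0 v1).1
  have h2 : v ^ 2 / 2 * 1 ≤ ((1 - u ^ 2) * x l - (1 - v ^ 2) * y l) *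
      ((1 - u ^ 2) * x l - (1 - w ^ 2) * z l) := by
    have e : ((1 - u ^ 2) * x l - (1 - v ^ 2) * y l) * ((1 - u ^ 2) * x l - (1 - w ^ 2) * z l) =
        ((1 - u ^ 2) - (1 - v ^ 2) * (x l * y l)) * ((1 - u ^ 2) + (1 - w ^ 2)) := by
      rw [hl]
      rcases hx l with h | h <;> rw [h] <;> ring
    have h3 : v ^ 2 / 2 ≤ (1 - u ^ 2) - (1 - v ^ 2) * (x l * y l) := by
      have := sq_nonneg v
      rcases hx l with h | h <;> rcases hy l with h' | h' <;> rw [h, h'] <;> linarith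
    rw [e]
    exact mul_le_mul h3 (by linarith) zero_le_one (le_trans (by positivity) h3)
  have h3 : -(τ * v ^ 2) ≤ (u - v) * (u - w) := by
    nlinarith [mul_nonneg (show 0 ≤ v - u by linarith) (show 0 ≤ τ * v - (u - w) by linarith),
      mul_nonneg u0.le (show 0 ≤ τ * v by linarith)]
  have h4 := mul_le_mul_of_nonneg_left h3 (sq_nonneg D)
  have h5 : D ^ 2 * -(τ * v ^ 2) = -(v ^ 2 / 4) := by linear_combination (-v ^ 2) * hD
  have h6 := mul_lt_mul_of_pos_right hn (pow_pos v0 2)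
  have h7 := mul_le_mul_of_nonneg_left hu2 (Nat.cast_nonneg (α := ℝ) n)
  have h8 := sq_nonneg u
  linarith

theorem acute_signs (n : ℕ) : ∃ s : Fin (2 ^ n + 1) → Fin n → ℝ,
    (∀ i l, s i l = 1 ∨ s i l = -1) ∧ ∀ i k, 0 < i → 0 < k → k ≠ i → ∃ l, s k l = -s i l := by
  obtain ⟨e⟩ : Nonempty (Fin (2 ^ n) ≃ (Fin n → Bool)) :=
    ⟨(Fintype.equivFinOfCardEq (by simp)).symm⟩
  refine ⟨Fin.cons (fun _ => 1) fun i l => if e i l then 1 else -1, fun i l => ?_,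
    fun i k hi hk h => ?_⟩
  · induction i using Fin.cases with
    | zero => exact Or.inl rfl
    | succ i =>
      rw [Fin.cons_succ]
      cases e i l <;> simp
  · obtain ⟨i, rfl⟩ := Fin.exists_succ_eq.2 hi.ne'
    obtain ⟨k, rfl⟩ := Fin.exists_succ_eq.2 hk.ne'
    obtain ⟨l, hl⟩ := Function.ne_iff.1 (e.injective.ne fun h' : k = i => h (h' ▸ rfl))
    refine ⟨l, ?_⟩
    rw [Fin.cons_succ, Fin.cons_succ]
    revert hl
    cases e i l <;> cases e k l <;> simp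

theorem exists_acute (n : ℕ) (hn : 1 ≤ n) :
    ∃ p : Fin (2 ^ n + 1) → EuclideanSpace ℝ (Fin (n + 1)),
      (∀ i j k, j ≠ i → k ≠ i → 0 < ⟪p i - p j, p i - p k⟫) ∧ ∀ i j, i < j → p j 0 < p i 0 := by
  obtain ⟨s, hs, hs'⟩ := acute_signs n
  have n1 : (1 : ℝ) ≤ n := by exact_mod_cast hn
  obtain ⟨D, hD⟩ : ∃ D : ℝ, D = 5 * n := ⟨_, rfl⟩
  obtain ⟨τ, hτ⟩ : ∃ τ : ℝ, τ = 1 / (100 * (n : ℝ) ^ 2) := ⟨_, rfl⟩
  have D0 : 0 < D := by linarith
  have τ0 : 0 < τ := by rw [hτ]; positivity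
  have c1 : τ * D ^ 2 = 1 / 4 := by
    rw [hτ, hD]
    field_simp
    norm_num
  have c0 : 8 * (n : ℝ) < D ^ 2 := by rw [hD]; nlinarith
  have c4 : 8 * (n : ℝ) * τ < 1 / 4 := by nlinarith
  have c2 : τ ≤ 1 / 2 := by nlinarith
  have c3 : 8 * (n : ℝ) * τ ^ 2 < 1 := by nlinarith
  obtain ⟨t, t0, t1, t2⟩ : ∃ t : Fin (2 ^ n + 1) → ℝ, (∀ i, 0 < t i) ∧ (∀ i, t i ≤ 1) ∧
      ∀ i j, i < j → t j ≤ τ * t i :=
    ⟨fun i => τ ^ i.val, fun i => pow_pos τ0 _, fun i => pow_le_one₀ τ0.le (by linarith),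
      fun i j h => (pow_le_pow_of_le_one τ0.le (by linarith) (Nat.succ_le_of_lt h)).trans
        (pow_succ' τ i.val).le⟩
  have t3 : ∀ i j, i < j → 2 * t j ≤ t i := fun i j h => by nlinarith [t2 i j h, t0 i]
  obtain ⟨p, p0, p1⟩ : ∃ p : Fin (2 ^ n + 1) → EuclideanSpace ℝ (Fin (n + 1)),
      (∀ i, p i 0 = D * t i) ∧ ∀ i (l : Fin n), p i l.succ = (1 - t i ^ 2) * s i l :=
    ⟨fun i => WithLp.toLp 2 (Fin.cons (D * t i) fun l => (1 - t i ^ 2) * s i l),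
      fun _ => rfl, fun _ _ => rfl⟩
  have hin : ∀ i j k, ⟪p i - p j, p i - p k⟫ = (D * t i - D * t j) * (D * t i - D * t k) +
      ∑ l, ((1 - t i ^ 2) * s i l - (1 - t j ^ 2) * s j l) *
        ((1 - t i ^ 2) * s i l - (1 - t k ^ 2) * s k l) := fun i j k => by
    rw [real_inner_comm]
    simp only [PiLp.inner_apply, Fin.sum_univ_succ, PiLp.sub_apply, p0, p1, RCLike.inner_apply,
      conj_trivial]
  have hlt : ∀ i j, i < j → p j 0 < p i 0 := fun i j h => by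
    rw [p0, p0]
    exact mul_lt_mul_of_pos_left (by linarith [t3 i j h, t0 j]) D0
  have side : ∀ i j k, k ≠ i → j < i → j < k → 0 < ⟪p i - p j, p i - p k⟫ :=
    fun i j k h h1 h2 => by
      rw [hin]
      exact acute_side c1 c2 c3 (t0 j) (t1 j) (t0 i) (t2 j i h1) (t0 k) (t2 j k h2) (hs i) (hs j)
        (hs k) (hs' i k ((Fin.zero_le j).trans_lt h1) ((Fin.zero_le j).trans_lt h2) h)
  have top : ∀ i j k, i < j → i < k → 0 < ⟪p i - p j, p i - p k⟫ := fun i j k h1 h2 => by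
    rw [hin]
    exact acute_top c0 (t0 i) (t1 i) (t0 j) (t3 i j h1) (t0 k) (t3 i k h2) (hs i) (hs j) (hs k)
  refine ⟨p, fun i j k hj hk => ?_, hlt⟩
  rcases lt_trichotomy j k with h | h | h
  · rcases hj.lt_or_gt with h' | h'
    · exact side i j k hk h' h
    · exact top i j k h' (h'.trans h)
  · subst h
    refine real_inner_self_pos.2 (sub_ne_zero.2 fun e => ?_)
    rcases hj.lt_or_gt with h' | h'
    · exact (hlt _ _ h').ne (by rw [e])
    · exact (hlt _ _ h').ne (by rw [e])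
  · rcases hk.lt_or_gt with h' | h'
    · rw [real_inner_comm]
      exact side i k j hj h' h
    · exact top i j k (h'.trans h) h'

end Pool.Agent.Lib.MP_eb34a4_co.MG
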