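import Mathlib
import Pool.Agent.Lib.MP_eb34a4_co.Typical
import Pool.Agent.Lib.MP_eb34a4_co.MG.Height

/-! A body whose boundary contains parabolic arcs through all differences of an acute set. -/

set_option autoImplicit false

open Set
open scoped RealInnerProductSpace

namespace Pool.Agent.Lib.MP_eb34a4_co.MG

variable {E : Type} [NormedAddCommGroup E] [InnerProductSpace ℝ E] [FiniteDimensional ℝ E]

/-- the parabolic arc through `v` -/
noncomputable def capsA (e f : E) (t : ℝ) (v : E) : E :=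
  v + (t * ⟪e, v⟫) • f - (t * ⟪f, v⟫ + t ^ 2 * ⟪e, v⟫) • e

/-- a normal vector of the arc -/
noncomputable def capsN (e f : E) (t : ℝ) (v : E) : E := v + (2 * t * ⟪e, v⟫) • f

omit [FiniteDimensional ℝ E] in
theorem caps_A_neg (e f : E) (t : ℝ) (v : E) : capsA e f t (-v) = -capsA e f t v := by
  simp only [capsA, inner_neg_right]
  module

omit [FiniteDimensional ℝ E] in
theorem caps_N_neg (e f : E) (t : ℝ) (v : E) : capsN e f t (-v) = -capsN e f t v := by
  simp only [capsN, inner_neg_right]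
  module

omit [FiniteDimensional ℝ E] in
theorem caps_N_e {e f : E} (hef : ⟪e, f⟫ = (0 : ℝ)) (t : ℝ) (v : E) :
    ⟪capsN e f t v, e⟫ = ⟪e, v⟫ := by
  rw [capsN, inner_add_left, real_inner_smul_left, real_inner_comm e f, hef, real_inner_comm e v]
  ring

omit [FiniteDimensional ℝ E] in
theorem caps_N_f {e f : E} (hff : ⟪f, f⟫ = (1 : ℝ)) (t : ℝ) (v : E) :
    ⟪capsN e f t v, f⟫ = ⟪f, v⟫ + 2 * t * ⟪e, v⟫ := by
  rw [capsN, inner_add_left, real_inner_smul_left, hff, real_inner_comm f v]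
  ring

omit [FiniteDimensional ℝ E] in
theorem caps_support {e f : E} (hff : ⟪f, f⟫ = (1 : ℝ)) (hef : ⟪e, f⟫ = (0 : ℝ)) (s t : ℝ)
    (v : E) : ⟪capsN e f t v, capsA e f s v⟫ ≤ ⟪capsN e f t v, capsA e f t v⟫ := by
  simp only [capsA, inner_add_right, inner_sub_right, real_inner_smul_right, caps_N_e hef,
    caps_N_f hff]
  nlinarith [sq_nonneg (⟪e, v⟫ * (s - t))]

omit [FiniteDimensional ℝ E] in
theorem caps_strict {N : ℕ} (p : Fin N → E)
    (hac : ∀ i j k, j ≠ i → k ≠ i → 0 < ⟪p i - p j, p i - p k⟫) (i j k l : Fin N) (hij : i ≠ j)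
    (h : ¬ (k = i ∧ l = j)) : 0 < ⟪p i - p j, (p i - p j) - (p k - p l)⟫ := by
  have e1 : (p i - p j) - (p k - p l) = (p i - p k) - (p j - p l) := by abel
  have e2 : ⟪p i - p j, p j - p l⟫ = -⟪p j - p i, p j - p l⟫ := by
    rw [← inner_neg_left, neg_sub]
  rw [e1, inner_sub_right, e2]
  by_cases hk : k = i
  · have hl : l ≠ j := fun hl => h ⟨hk, hl⟩
    have := hac j i l hij hl
    rw [hk, sub_self, inner_zero_right]
    linarith
  · have h1 := hac i j k hij.symm hk
    by_cases hl : l = j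
    · rw [hl, sub_self, inner_zero_right]
      linarith
    · have := hac j i l hij hl
      linarith

omit [FiniteDimensional ℝ E] in
theorem caps_consts {N : ℕ} (p : Fin N → E) (e f : E)
    (hac : ∀ i j k, j ≠ i → k ≠ i → 0 < ⟪p i - p j, p i - p k⟫)
    (hmono : ∀ i j, i < j → 0 < ⟪e, p i - p j⟫) :
    ∃ σ ρ M : ℝ, 0 < σ ∧ 0 < ρ ∧ ρ ≤ 1 ∧ 0 < M ∧ (∀ i j, i < j → σ ≤ ⟪e, p i - p j⟫) ∧
      ∀ t ∈ Icc (-(3 * ρ)) (3 * ρ), ∀ s ∈ Icc (-(3 * ρ)) (3 * ρ), ∀ i j,
        ‖capsN e f t (p i - p j)‖ ≤ M ∧ ‖capsA e f t (p i - p j)‖ ≤ M ∧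
        ∀ k l, i ≠ j → ¬ (k = i ∧ l = j) →
          σ ≤ ⟪capsN e f t (p i - p j), capsA e f t (p i - p j) - capsA e f s (p k - p l)⟫ := by
  have hσ : ∀ᶠ σ : ℝ in nhdsWithin 0 (Ioi 0), 0 < σ ∧ ∀ i j, (i < j → σ ≤ ⟪e, p i - p j⟫) ∧
      ∀ k l, i ≠ j → ¬ (k = i ∧ l = j) → σ < ⟪p i - p j, (p i - p j) - (p k - p l)⟫ := by
    refine Filter.Eventually.and self_mem_nhdsWithin (Filter.Eventually.filter_mono
      nhdsWithin_le_nhds (Filter.eventually_all.2 fun i => Filter.eventually_all.2 fun j =>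
        Filter.Eventually.and ?_
          (Filter.eventually_all.2 fun k => Filter.eventually_all.2 fun l => ?_)))
    · by_cases hij : i < j
      · filter_upwards [ge_mem_nhds (hmono i j hij)] with σ h _
        exact h
      · exact Filter.Eventually.of_forall fun σ h => absurd h hij
    · by_cases h : i ≠ j ∧ ¬ (k = i ∧ l = j)
      · filter_upwards [gt_mem_nhds (caps_strict p hac i j k l h.1 h.2)] with σ h _ _
        exact h
      · exact Filter.Eventually.of_forall fun σ h1 h2 => absurd ⟨h1, h2⟩ h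
  obtain ⟨σ, hσ0, hσ⟩ := hσ.exists
  obtain ⟨M, hM⟩ := (Set.finite_range fun q : Fin N × Fin N => ‖p q.1 - p q.2‖).bddAbove
  have hM' : ∀ i j, ‖p i - p j‖ < |M| + 1 := fun i j => by
    have h1 : ‖p i - p j‖ ≤ M := hM ⟨(i, j), rfl⟩
    linarith [le_abs_self M]
  have hev : ∀ᶠ q : ℝ × ℝ in nhds (0, 0), ∀ i j,
      ‖capsN e f q.1 (p i - p j)‖ ≤ |M| + 1 ∧ ‖capsA e f q.1 (p i - p j)‖ ≤ |M| + 1 ∧
      ∀ k l, i ≠ j → ¬ (k = i ∧ l = j) → σ ≤ ⟪capsN e f q.1 (p i - p j),
        capsA e f q.1 (p i - p j) - capsA e f q.2 (p k - p l)⟫ := by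
    refine Filter.eventually_all.2 fun i => Filter.eventually_all.2 fun j =>
      Filter.Eventually.and ?_ (Filter.Eventually.and ?_
        (Filter.eventually_all.2 fun k => Filter.eventually_all.2 fun l => ?_))
    · have hc : Continuous fun q : ℝ × ℝ => ‖capsN e f q.1 (p i - p j)‖ := by
        unfold capsN
        fun_prop
      exact hc.continuousAt.eventually (ge_mem_nhds (by simpa [capsN] using hM' i j))
    · have hc : Continuous fun q : ℝ × ℝ => ‖capsA e f q.1 (p i - p j)‖ := by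
        unfold capsA
        fun_prop
      exact hc.continuousAt.eventually (ge_mem_nhds (by simpa [capsA] using hM' i j))
    · by_cases h : i ≠ j ∧ ¬ (k = i ∧ l = j)
      · have hc : Continuous fun q : ℝ × ℝ => ⟪capsN e f q.1 (p i - p j),
            capsA e f q.1 (p i - p j) - capsA e f q.2 (p k - p l)⟫ := by
          unfold capsN capsA
          fun_prop
        have h0 := (hσ i j).2 k l h.1 h.2
        filter_upwards [(hc.continuousAt (x := (0, 0))).eventually
          (le_mem_nhds (a := σ) (by simpa [capsN, capsA] using h0))] with q hq _ _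
        exact hq
      · exact Filter.Eventually.of_forall fun q h1 h2 => absurd ⟨h1, h2⟩ h
  obtain ⟨ε, hε, hball⟩ := Metric.eventually_nhds_iff.1 hev
  refine ⟨σ, min 1 (ε / 4), |M| + 1, hσ0, lt_min one_pos (by linarith), min_le_left _ _,
    by positivity, fun i j => (hσ i j).1, fun t ht s hs => hball (y := (t, s)) ?_⟩
  have h4 := min_le_right 1 (ε / 4)
  rw [Prod.dist_eq, max_lt_iff, Real.dist_eq, Real.dist_eq, sub_zero, sub_zero, abs_lt, abs_lt]
  exact ⟨⟨by linarith [ht.1], by linarith [ht.2]⟩, by linarith [hs.1], by linarith [hs.2]⟩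

theorem exists_caps {N : ℕ} (p : Fin N → E) (e f : E) (hee : ⟪e, e⟫ = (1 : ℝ))
    (hff : ⟪f, f⟫ = (1 : ℝ)) (hef : ⟪e, f⟫ = (0 : ℝ))
    (hac : ∀ i j k, j ≠ i → k ≠ i → 0 < ⟪p i - p j, p i - p k⟫)
    (hmono : ∀ i j, i < j → 0 < ⟪e, p i - p j⟫) :
    ∃ (K₀ : Body E) (ρ : ℝ), 0 < ρ ∧ ρ ≤ 1 ∧ ∀ θ : ℝ, 0 < θ → ∃ δ : ℝ, 0 < δ ∧
      ∀ K : Body E, dist K K₀ < δ → ∀ i j, i < j → ∃ H : ℝ → ℝ, Continuous H ∧
        ConcaveOn ℝ (Icc (-(2 * ρ)) (2 * ρ)) H ∧ ∀ t ∈ Icc (-(2 * ρ)) (2 * ρ),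
          |H t + ⟪f, p i - p j⟫ * t + ⟪e, p i - p j⟫ * t ^ 2| ≤ θ ∧
          (p i - p j) + t • (⟪e, p i - p j⟫ • f) + H t • e ∈ frontier (K.1 : Set E) := by
  obtain ⟨σ, ρ, M, hσ, hρ, hρ1, hM, hv0, hb⟩ := caps_consts p e f hac hmono
  have he1 : ‖e‖ = 1 := by
    rw [real_inner_self_eq_norm_sq] at hee
    nlinarith [norm_nonneg e]
  have hin : ∀ t ∈ Icc (-(3 * ρ)) (3 * ρ), ∀ i j, ∀ x : E,
      ⟪capsN e f t (p i - p j), x⟫ ≤ M * ‖x‖ := fun t ht i j x =>
    (real_inner_le_norm _ _).trans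
      (mul_le_mul_of_nonneg_right (hb t ht t ht i j).1 (norm_nonneg _))
  let C : Set E := {x | ‖x‖ ≤ M + 2 ∧ ∀ i j, i ≠ j → ∀ t ∈ Icc (-(3 * ρ)) (3 * ρ),
    ⟪capsN e f t (p i - p j), x⟫ ≤ ⟪capsN e f t (p i - p j), capsA e f t (p i - p j)⟫}
  have hCclosed : IsClosed C := by
    simp only [C, Set.ofPred_and, Set.ofPred_forall]
    refine (isClosed_le (by fun_prop) continuous_const).inter (isClosed_iInter fun i =>
      isClosed_iInter fun j => isClosed_iInter fun _ => isClosed_iInter fun t =>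
        isClosed_iInter fun _ => isClosed_le (by fun_prop) continuous_const)
  have hCbdd : Bornology.IsBounded C :=
    isBounded_iff_forall_norm_le.2 ⟨M + 2, fun x hx => hx.1⟩
  have hCcomp : IsCompact C := Metric.isCompact_of_isClosed_isBounded hCclosed hCbdd
  have hCball : Metric.ball (0 : E) (min 1 (σ / M)) ⊆ C := by
    intro x hx
    rw [mem_ball_zero_iff, lt_min_iff, lt_div_iff₀ hM] at hx
    refine ⟨by linarith [hx.1], fun i j hij t ht => ?_⟩
    have h1 := (hb t ht t ht i j).2.2 i i hij (fun h => hij h.2)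
    have h2 : capsA e f t (p i - p i) = 0 := by simp [capsA]
    rw [h2, sub_zero] at h1
    have h3 := hin t ht i j x
    linarith [hx.2]
  have hr : 0 < min 1 (σ / M) := lt_min one_pos (by positivity)
  have hCne : C.Nonempty := ⟨0, hCball (Metric.mem_ball_self hr)⟩
  have hCconv : Convex ℝ C := by
    intro x hx y hy a b ha hb' hab
    refine ⟨?_, fun i j hij t ht => ?_⟩
    · have h1 := norm_add_le (a • x) (b • y)
      rw [norm_smul, norm_smul, Real.norm_of_nonneg ha, Real.norm_of_nonneg hb'] at h1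
      have h2 := mul_le_mul_of_nonneg_left hx.1 ha
      have h3 := mul_le_mul_of_nonneg_left hy.1 hb'
      have h4 : a * (M + 2) + b * (M + 2) = M + 2 := by rw [← add_mul, hab, one_mul]
      linarith
    · rw [inner_add_right, real_inner_smul_right, real_inner_smul_right]
      have h2 := mul_le_mul_of_nonneg_left (hx.2 i j hij t ht) ha
      have h3 := mul_le_mul_of_nonneg_left (hy.2 i j hij t ht) hb'
      have h4 : ∀ c : ℝ, a * c + b * c = c := fun c => by rw [← add_mul, hab, one_mul]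
      linarith [h4 ⟪capsN e f t (p i - p j), capsA e f t (p i - p j)⟫]
  have hCsymm : ∀ x ∈ C, -x ∈ C := by
    intro x hx
    refine ⟨by rw [norm_neg]; exact hx.1, fun i j hij t ht => ?_⟩
    have h1 := hx.2 j i hij.symm t ht
    rw [← neg_sub (p i) (p j), caps_N_neg, caps_A_neg, inner_neg_neg, inner_neg_left] at h1
    rw [inner_neg_right]
    exact h1
  let K₀ : Body E := ⟨⟨⟨C, hCcomp⟩, hCne⟩, hCconv, hCsymm,
    mem_interior.2 ⟨_, hCball, Metric.isOpen_ball, Metric.mem_ball_self hr⟩⟩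
  refine ⟨K₀, ρ, hρ, hρ1, fun θ hθ => ?_⟩
  obtain ⟨η, hη, hηθ, hη1, hησ⟩ : ∃ η : ℝ, 0 < η ∧ η ≤ θ ∧ η ≤ 1 ∧ 2 * M * η ≤ σ := by
    refine ⟨min θ (min 1 (σ / (2 * M))), lt_min hθ (lt_min one_pos (by positivity)),
      min_le_left _ _, (min_le_right _ _).trans (min_le_left _ _), ?_⟩
    have h1 : min θ (min 1 (σ / (2 * M))) ≤ σ / (2 * M) :=
      (min_le_right _ _).trans (min_le_right _ _)
    rw [le_div_iff₀ (by positivity)] at h1
    linarith
  obtain ⟨δ, hδ, hδη, hδσ⟩ : ∃ δ : ℝ, 0 < δ ∧ 2 * δ ≤ η ∧ 2 * M * δ ≤ η * σ := by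
    refine ⟨min (η / 2) (η * σ / (2 * M)), lt_min (by positivity) (by positivity),
      by linarith [min_le_left (η / 2) (η * σ / (2 * M))], ?_⟩
    have h1 := min_le_right (η / 2) (η * σ / (2 * M))
    rw [le_div_iff₀ (by positivity)] at h1
    linarith
  refine ⟨δ, hδ, fun K hK i j hij => ?_⟩
  rw [Subtype.dist_eq, Metric.NonemptyCompacts.dist_eq] at hK
  have hfin : Metric.hausdorffEDist (K.1 : Set E) (K₀.1 : Set E) ≠ ⊤ :=
    Metric.hausdorffEDist_ne_top_of_nonempty_of_bounded K.1.nonempty hCne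
      K.1.isCompact.isBounded hCbdd
  have hv := hv0 i j hij
  have hηv : η * σ ≤ η * ⟪e, p i - p j⟫ := mul_le_mul_of_nonneg_left hv hη.le
  obtain ⟨H, h1, h2, h3⟩ := exists_height (K.1 : Set E) K.1.isCompact K.2.1 (p i - p j)
    (⟪e, p i - p j⟫ • f) e (fun t => -(⟪f, p i - p j⟫ * t) - ⟪e, p i - p j⟫ * t ^ 2) ρ η hρ
    (by
      intro s hs
      have e1 : (p i - p j) + s • (⟪e, p i - p j⟫ • f) +
          (-(⟪f, p i - p j⟫ * s) - ⟪e, p i - p j⟫ * s ^ 2 - η) • e =
          capsA e f s (p i - p j) - η • e := by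
        simp only [capsA]
        module
      rw [e1]
      refine ball_subset_of_near (K.1 : Set E) C K.1.nonempty K.1.isCompact K.2.1 δ hδ
        (fun y hy => ?_) _ (fun y hy => ?_) (Metric.mem_ball_self hδ)
      · obtain ⟨k, hk, h⟩ :=
          Metric.exists_dist_lt_of_hausdorffDist_lt' (t := (K₀.1 : Set E)) hy hK hfin
        exact ⟨k, hk, by rw [dist_comm]; exact h⟩
      · rw [mem_ball_iff_norm] at hy
        obtain ⟨d, rfl⟩ : ∃ d, y = capsA e f s (p i - p j) - η • e + d :=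
          ⟨y - (capsA e f s (p i - p j) - η • e), by abel⟩
        rw [add_sub_cancel_left] at hy
        have hd : ‖d - η • e‖ ≤ 2 * η := by
          have := norm_sub_le d (η • e)
          rw [norm_smul, he1, Real.norm_of_nonneg hη.le] at this
          linarith
        have e2 : capsA e f s (p i - p j) - η • e + d = capsA e f s (p i - p j) + (d - η • e) := by
          abel
        refine ⟨?_, fun k l hkl t ht => ?_⟩
        · rw [e2]
          have h4 := norm_add_le (capsA e f s (p i - p j)) (d - η • e)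
          have h5 := (hb s hs s hs i j).2.1
          linarith
        · by_cases h : i = k ∧ j = l
          · obtain ⟨rfl, rfl⟩ := h
            rw [inner_add_right, inner_sub_right, real_inner_smul_right, caps_N_e hef]
            have h4 := caps_support hff hef s t (p i - p j)
            have h5 := hin t ht i j d
            have h6 := mul_le_mul_of_nonneg_left hy.le hM.le
            linarith
          · have h4 := (hb t ht s hs k l).2.2 i j hkl h
            rw [inner_sub_right] at h4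
            rw [e2, inner_add_right]
            have h5 := hin t ht k l (d - η • e)
            have h6 := mul_le_mul_of_nonneg_left hd hM.le
            linarith)
    (by
      intro s hs z hz hmem
      obtain ⟨y, hy, hxy⟩ := Metric.exists_dist_lt_of_hausdorffDist_lt hmem hK hfin
      have e1 : (p i - p j) + s • (⟪e, p i - p j⟫ • f) + z • e =
          capsA e f s (p i - p j) +
            (z - (-(⟪f, p i - p j⟫ * s) - ⟪e, p i - p j⟫ * s ^ 2)) • e := by
        simp only [capsA]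
        module
      rw [e1, dist_eq_norm] at hxy
      have h4 := hy.2 i j hij.ne s hs
      have h5 := hin s hs i j (capsA e f s (p i - p j) +
        (z - (-(⟪f, p i - p j⟫ * s) - ⟪e, p i - p j⟫ * s ^ 2)) • e - y)
      rw [inner_sub_right, inner_add_right, real_inner_smul_right, caps_N_e hef] at h5
      have h6 := mul_le_mul_of_nonneg_left hxy.le hM.le
      have h7 : η * ⟪e, p i - p j⟫ ≤
          (z - (-(⟪f, p i - p j⟫ * s) - ⟪e, p i - p j⟫ * s ^ 2)) * ⟪e, p i - p j⟫ :=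
        mul_le_mul_of_nonneg_right (by linarith) (by linarith)
      have h8 : 0 < M * δ := mul_pos hM hδ
      linarith)
  refine ⟨H, h1, h2, fun t ht => ⟨?_, (h3 t ht).2⟩⟩
  have h4 := (h3 t ht).1
  have e1 : H t + ⟪f, p i - p j⟫ * t + ⟪e, p i - p j⟫ * t ^ 2 =
      H t - (-(⟪f, p i - p j⟫ * t) - ⟪e, p i - p j⟫ * t ^ 2) := by ring
  rw [e1]
  exact h4.trans hηθ

end Pool.Agent.Lib.MP_eb34a4_co.MG
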