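import Mathlib
import Pool.Agent.Lib.MP_eb34a4_co.MG.Key

/-! The same on a strip along the parabola. -/

set_option autoImplicit false

open MeasureTheory Set
open scoped RealInnerProductSpace

namespace Pool.Agent.Lib.MP_eb34a4_co.MG

variable {E : Type} [NormedAddCommGroup E] [InnerProductSpace ℝ E] [FiniteDimensional ℝ E]
  [MeasurableSpace E] [BorelSpace E]

theorem strip_aux (b : ℝ → ℝ → ℝ) (hb : Continuous b.uncurry) (h0 : ∀ t z, 0 ≤ b t z)
    (h : ℝ → ℝ) (hc : Continuous h) {ρ θ k C : ℝ} (hρ : 0 ≤ ρ) (hθ : 0 < θ) (hk : 1 ≤ k)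
    (hh : ∀ t ∈ Icc (-ρ) ρ, |h t| ≤ θ)
    (hC : ∀ z, |z| ≤ (k + 1) * θ → ∫ t in (-ρ)..ρ, b t z ≤ C) :
    ∫ t in (-ρ)..ρ, ∫ s in (0 : ℝ)..θ, b t (k * s - h t) ≤ 2 * ((k + 1) * θ) * C := by
  have hL : 0 < (k + 1) * θ := by positivity
  have hkθ : θ ≤ k * θ := le_mul_of_one_le_left hθ.le hk
  have c1 : Continuous fun t => ∫ s in (0 : ℝ)..θ, b t (k * s - h t) :=
    intervalIntegral.continuous_parametric_intervalIntegral_of_continuous'
      (f := fun t s => b t (k * s - h t))
      (hb.comp (f := fun p : ℝ × ℝ => (p.1, k * p.2 - h p.1)) (by fun_prop)) _ _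
  have c2 : Continuous fun t => ∫ z in (-((k + 1) * θ))..((k + 1) * θ), b t z :=
    intervalIntegral.continuous_parametric_intervalIntegral_of_continuous' hb _ _
  have c3 : Continuous fun z => ∫ t in (-ρ)..ρ, b t z :=
    intervalIntegral.continuous_parametric_intervalIntegral_of_continuous'
      (f := fun z t => b t z) (hb.comp continuous_swap) _ _
  calc ∫ t in (-ρ)..ρ, ∫ s in (0 : ℝ)..θ, b t (k * s - h t)
      ≤ ∫ t in (-ρ)..ρ, ∫ z in (-((k + 1) * θ))..((k + 1) * θ), b t z := by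
        refine intervalIntegral.integral_mono_on (by linarith) (c1.intervalIntegrable _ _)
          (c2.intervalIntegrable _ _) fun t ht => ?_
        obtain ⟨h1, h2⟩ := abs_le.1 (hh t ht)
        have cb : Continuous (b t) := hb.comp (Continuous.prodMk_right t)
        rw [intervalIntegral.integral_comp_mul_sub (b t) (by positivity : k ≠ 0) (h t),
          smul_eq_mul]
        have h3 : 0 ≤ ∫ z in (k * 0 - h t)..(k * θ - h t), b t z :=
          intervalIntegral.integral_nonneg (by linarith) fun z _ => h0 t z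
        refine (mul_le_of_le_one_left h3 (inv_le_one_of_one_le₀ hk)).trans ?_
        exact intervalIntegral.integral_mono_interval (by linarith) (by linarith) (by linarith)
          (Filter.Eventually.of_forall fun z => h0 t z) (cb.intervalIntegrable _ _)
    _ = ∫ z in (-((k + 1) * θ))..((k + 1) * θ), ∫ t in (-ρ)..ρ, b t z :=
        intervalIntegral_intervalIntegral_swap
          ((hb.continuousOn.integrableOn_compact (isCompact_uIcc.prod isCompact_uIcc)).mono_set
            (prod_mono uIoc_subset_uIcc uIoc_subset_uIcc))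
    _ ≤ ∫ _ in (-((k + 1) * θ))..((k + 1) * θ), C :=
        intervalIntegral.integral_mono_on (by linarith) (c3.intervalIntegrable _ _)
          intervalIntegrable_const fun z hz => hC z (abs_le.2 hz)
    _ = 2 * ((k + 1) * θ) * C := by
        rw [intervalIntegral.integral_const, smul_eq_mul]
        ring

theorem key_strip (A : Set E) (hA : NullMeasurableSet A volume) (hfin : volume A ≠ ⊤)
    (u f e : E) (H : ℝ → ℝ) (ρ r lam μ θ k : ℝ) (hc : Continuous H)
    (hH : ConcaveOn ℝ (Icc (-(2 * ρ)) (2 * ρ)) H) (hr : 0 < r) (hrρ : r ≤ ρ) (hlam : 0 < lam)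
    (hθ0 : 0 < θ) (hθ : 4 * θ ≤ lam * r ^ 2) (hk : 1 ≤ k)
    (hnear : ∀ t ∈ Icc (-(2 * ρ)) (2 * ρ), |H t + μ * t + lam * t ^ 2| ≤ θ)
    (hzero : ∀ t ∈ Icc (-ρ) ρ, volume (A ∩ {x | x + (u + t • f + H t • e) ∈ A}) = 0) :
    ∫ t in (-ρ)..ρ, ∫ s in (0 : ℝ)..θ,
        (volume (A ∩ {x | x + (u + t • f + (k * s - μ * t - lam * t ^ 2) • e) ∈ A})).toReal ≤
      2 * ((k + 1) * θ) * ((4 * r + 16 * ((k + 1) * θ) / (lam * r)) * (volume A).toReal) := by
  have ha := auto_continuous A hA hfin
  have key := strip_aux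
    (fun t z => (volume (A ∩ {x | x + (u + t • f + (H t + z) • e) ∈ A})).toReal)
    (ha.comp (f := fun p : ℝ × ℝ => u + p.1 • f + (H p.1 + p.2) • e) (by fun_prop))
    (fun _ _ => ENNReal.toReal_nonneg) (fun t => H t + μ * t + lam * t ^ 2) (by fun_prop)
    (ρ := ρ) (θ := θ) (k := k)
    (C := (4 * r + 16 * ((k + 1) * θ) / (lam * r)) * (volume A).toReal) (by linarith) hθ0 hk
    (fun t ht => hnear t ⟨by linarith [ht.1], by linarith [ht.2]⟩) fun z hz => by
      refine (key_line A hA hfin u f e H ρ r lam μ θ hc hH hr hrρ hlam hθ hnear hzero z).trans ?_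
      gcongr
  have e1 : ∀ t s : ℝ, H t + (k * s - (H t + μ * t + lam * t ^ 2)) =
      k * s - μ * t - lam * t ^ 2 := fun t s => by ring
  simpa only [e1] using key

end Pool.Agent.Lib.MP_eb34a4_co.MG
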