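import Mathlib
import Pool.Agent.Lib.MP_eb34a4_co.Main
import Pool.Agent.Lib.MP_eb34a4_co.MG.Acute
import Pool.Agent.Lib.MP_eb34a4_co.MG.Strip
import Pool.Agent.Lib.MP_eb34a4_co.MG.Caps
import Pool.Agent.Lib.MP_eb34a4_co.MG.Baire

/-! Measurable colourings need many colours on an open set of norms. -/

set_option autoImplicit false

open MeasureTheory Set Metric
open scoped RealInnerProductSpace

namespace Pool.Agent.Lib.MP_eb34a4_co.MG

theorem main_avg {ι : Type} (S : Finset ι) (F : ι → ℝ → ℝ → ℝ)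
    (hF : ∀ q, Continuous (Function.uncurry (F q))) (ρ θ V : ℝ) (hρ : 0 ≤ ρ) (hθ : 0 ≤ θ)
    (h : ∀ t ∈ Icc (-ρ) ρ, ∀ s ∈ Icc 0 θ, V ≤ ∑ q ∈ S, F q t s) :
    2 * ρ * (θ * V) ≤ ∑ q ∈ S, ∫ t in (-ρ)..ρ, ∫ s in (0 : ℝ)..θ, F q t s := by
  have h1 : ∀ q t, Continuous (F q t) := fun q t => (hF q).uncurry_left t
  have h2 : ∀ q, Continuous fun t => ∫ s in (0 : ℝ)..θ, F q t s := fun q =>
    intervalIntegral.continuous_parametric_intervalIntegral_of_continuous' (hF q) 0 θ
  rw [← intervalIntegral.integral_finsetSum (fun q _ => (h2 q).intervalIntegrable _ _)]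
  have h3 : ∫ _ in (-ρ)..ρ, θ * V = 2 * ρ * (θ * V) := by
    rw [intervalIntegral.integral_const, smul_eq_mul]; ring
  rw [← h3]
  refine intervalIntegral.integral_mono_on (by linarith) (continuous_const.intervalIntegrable _ _)
    ((continuous_finsetSum _ fun q _ => h2 q).intervalIntegrable _ _) fun t ht => ?_
  rw [← intervalIntegral.integral_finsetSum (fun q _ => (h1 q t).intervalIntegrable _ _)]
  have h4 : ∫ _ in (0 : ℝ)..θ, V = θ * V := by
    rw [intervalIntegral.integral_const, smul_eq_mul]; ring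
  rw [← h4]
  exact intervalIntegral.integral_mono_on hθ (continuous_const.intervalIntegrable _ _)
    ((continuous_finsetSum _ fun q _ => h1 q t).intervalIntegrable _ _) fun s hs => h t ht s hs

variable {E : Type} [NormedAddCommGroup E] [InnerProductSpace ℝ E] [FiniteDimensional ℝ E]
  [MeasurableSpace E] [BorelSpace E]

theorem main_bonf {N : ℕ} (S : Fin N → Set E) (B : Set E)
    (hS : ∀ i, NullMeasurableSet (S i) volume) (hB : ∀ i, S i ⊆ B) :
    ∑ i, volume (S i) ≤ volume B +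
      ∑ q ∈ (Finset.univ : Finset (Fin N × Fin N)).filter (fun q => q.1 < q.2),
        volume (S q.1 ∩ S q.2) := by
  let D : Fin N → Set E := fun j => S j \ ⋃ i ∈ Finset.univ.filter (fun i => i < j), S i
  have hD : ∀ j, NullMeasurableSet (D j) volume := fun j =>
    (hS j).diff (Finset.nullMeasurableSet_biUnion _ fun i _ => hS i)
  have hdis : ∀ i j, i < j → Disjoint (D i) (D j) := fun i j hij =>
    disjoint_left.2 fun x hx hx' => hx'.2 (mem_iUnion₂.2 ⟨i, by simpa using hij, hx.1⟩)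
  have h1 : ∑ j, volume (D j) ≤ volume B := by
    rw [← measure_biUnion_finset₀ (fun i _ j _ hij => ?_) (fun j _ => hD j)]
    · exact measure_mono (iUnion₂_subset fun j _ => sdiff_subset.trans (hB j))
    · rcases lt_or_gt_of_ne hij with h | h
      · exact (hdis i j h).aedisjoint
      · exact (hdis j i h).symm.aedisjoint
  have h2 : ∀ j, volume (S j) ≤ volume (D j) +
      ∑ i ∈ Finset.univ.filter (fun i => i < j), volume (S i ∩ S j) := by
    intro j
    have : S j ⊆ D j ∪ ⋃ i ∈ Finset.univ.filter (fun i => i < j), S i ∩ S j := by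
      intro x hx
      by_cases h : x ∈ ⋃ i ∈ Finset.univ.filter (fun i => i < j), S i
      · obtain ⟨i, hi, hxi⟩ := mem_iUnion₂.1 h
        exact Or.inr (mem_iUnion₂.2 ⟨i, hi, hxi, hx⟩)
      · exact Or.inl ⟨hx, h⟩
    exact (measure_mono this).trans ((measure_union_le _ _).trans
      (add_le_add le_rfl (measure_biUnion_finset_le _ _)))
  have h3 : ∑ q ∈ (Finset.univ : Finset (Fin N × Fin N)).filter (fun q => q.1 < q.2),
      volume (S q.1 ∩ S q.2) =
      ∑ j, ∑ i ∈ Finset.univ.filter (fun i => i < j), volume (S i ∩ S j) := by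
    simp only [Finset.sum_filter]
    rw [Fintype.sum_prod_type_right]
  rw [h3]
  refine (Finset.sum_le_sum fun j _ => h2 j).trans ?_
  rw [Finset.sum_add_distrib]
  exact add_le_add h1 le_rfl

theorem main_pigeon {N : ℕ} (A : Set E) (hA : NullMeasurableSet A volume) (R : ℝ)
    (hR : A ⊆ ball 0 R) (y : Fin N → E) (L : ℝ) (hy : ∀ i, ‖y i‖ ≤ L) :
    N * (volume A).toReal - (volume (ball (0 : E) (R + L))).toReal ≤
      ∑ q ∈ (Finset.univ : Finset (Fin N × Fin N)).filter (fun q => q.1 < q.2),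
        (volume (A ∩ {x | x + (y q.1 - y q.2) ∈ A})).toReal := by
  have hfin : ∀ q : Fin N × Fin N, volume (A ∩ {x | x + (y q.1 - y q.2) ∈ A}) ≠ ⊤ := fun q =>
    ((measure_mono (inter_subset_left.trans hR)).trans_lt measure_ball_lt_top).ne
  have h := main_bonf (fun i => (fun x => x + y i) ⁻¹' A) (ball (0 : E) (R + L))
    (fun i => hA.preimage (measurePreserving_add_right volume (y i)).quasiMeasurePreserving)
    (fun i x hx => by
      have h1 := mem_ball_zero_iff.1 (hR hx)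
      have h2 := norm_sub_le (x + y i) (y i)
      rw [add_sub_cancel_right] at h2
      exact mem_ball_zero_iff.2 (by linarith [hy i]))
  have e : ∀ q : Fin N × Fin N,
      volume ((fun x => x + y q.1) ⁻¹' A ∩ (fun x => x + y q.2) ⁻¹' A) =
        volume (A ∩ {x | x + (y q.1 - y q.2) ∈ A}) := by
    intro q
    rw [← measure_preimage_add_right volume (y q.2) (A ∩ {x | x + (y q.1 - y q.2) ∈ A})]
    congr 1
    ext x
    have e1 : x + y q.2 + (y q.1 - y q.2) = x + y q.1 := by abel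
    change _ ↔ x + y q.2 ∈ A ∧ x + y q.2 + (y q.1 - y q.2) ∈ A
    rw [e1]
    exact and_comm
  simp only [e, measure_preimage_add_right, Finset.sum_const, Finset.card_univ,
    Fintype.card_fin, nsmul_eq_mul] at h
  have hs := ENNReal.sum_ne_top.2 fun q
    (_ : q ∈ (Finset.univ : Finset (Fin N × Fin N)).filter (fun q => q.1 < q.2)) => hfin q
  have h' := ENNReal.toReal_mono (ENNReal.add_ne_top.2 ⟨measure_ball_lt_top.ne, hs⟩) h
  rw [ENNReal.toReal_add measure_ball_lt_top.ne hs, ENNReal.toReal_sum (fun q _ => hfin q),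
    ENNReal.toReal_mul, ENNReal.toReal_natCast] at h'
  linarith

theorem main_open {N : ℕ} (p : Fin N → E) (e f : E) (hee : ⟪e, e⟫ = (1 : ℝ))
    (hff : ⟪f, f⟫ = (1 : ℝ)) (hef : ⟪e, f⟫ = (0 : ℝ))
    (hac : ∀ i j k, j ≠ i → k ≠ i → 0 < ⟪p i - p j, p i - p k⟫)
    (hmono : ∀ i j, i < j → 0 < ⟪e, p i - p j⟫) (η : ℝ) (hη : 0 < η) :
    ∃ (K₀ : Body E) (δ L : ℝ), 0 < δ ∧ ∀ K : Body E, dist K K₀ < δ → ∀ A : Set E,
      NullMeasurableSet A volume → (∀ x ∈ A, ∀ y ∈ A, x - y ∉ frontier (K.1 : Set E)) →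
        ∀ R, A ⊆ ball 0 R →
          (N - η) * (volume A).toReal ≤ (volume (ball (0 : E) (R + L))).toReal := by
  obtain ⟨K₀, ρ, hρ, hρ1, hK⟩ := exists_caps p e f hee hff hef hac hmono
  let y : ℝ × ℝ → Fin N → E := fun w i => p i + w.1 • (⟪e, p i⟫ • f) +
    (-((i : ℕ) * w.2) - ⟪f, p i⟫ * w.1 - ⟪e, p i⟫ * w.1 ^ 2) • e
  have hyc : Continuous y := by
    refine continuous_pi fun i => ?_
    simp only [y]
    fun_prop
  obtain ⟨L, hL⟩ := ((isCompact_Icc (a := (-1 : ℝ)) (b := 1)).prod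
    (isCompact_Icc (a := (0 : ℝ)) (b := 1))).exists_bound_of_continuousOn hyc.continuousOn
  obtain ⟨lam, hlam, hlam'⟩ : ∃ lam : ℝ, 0 < lam ∧ ∀ i j, i < j → lam ≤ ⟪e, p i - p j⟫ := by
    have hev : ∀ᶠ lam : ℝ in nhdsWithin 0 (Ioi 0), ∀ i j, i < j → lam ≤ ⟪e, p i - p j⟫ := by
      refine Filter.eventually_all.2 fun i => Filter.eventually_all.2 fun j => ?_
      by_cases hij : i < j
      · filter_upwards [nhdsWithin_le_nhds (Iic_mem_nhds (hmono i j hij))] with l hl _ using hl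
      · exact Filter.Eventually.of_forall fun l h => absurd h hij
    obtain ⟨lam, h1, h2⟩ := (hev.and self_mem_nhdsWithin).exists
    exact ⟨lam, h2, h1⟩
  set S := (Finset.univ : Finset (Fin N × Fin N)).filter (fun q => q.1 < q.2) with hS
  set B : ℝ := S.card * (N + 1) with hB
  have hBnn : 0 ≤ B := by positivity
  set r : ℝ := min ρ (ρ * η / (8 * (B + 1))) with hr
  have hr0 : 0 < r := lt_min hρ (by positivity)
  have hrB : 8 * r * B ≤ ρ * η := by
    have h1 : r ≤ ρ * η / (8 * (B + 1)) := min_le_right _ _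
    rw [le_div_iff₀ (by positivity)] at h1
    nlinarith
  set θ : ℝ := min 1 (lam * r ^ 2 / (4 * (N + 1))) with hθ
  have hθ0 : 0 < θ := lt_min one_pos (by positivity)
  have hθ1 : θ * (4 * (N + 1)) ≤ lam * r ^ 2 := by
    have h1 : θ ≤ lam * r ^ 2 / (4 * (N + 1)) := min_le_right _ _
    rwa [le_div_iff₀ (by positivity)] at h1
  obtain ⟨δ, hδ, hK'⟩ := hK θ hθ0
  refine ⟨K₀, δ, L, hδ, fun K hd A hA hav R hR => ?_⟩
  have hfin : volume A ≠ ⊤ := ((measure_mono hR).trans_lt measure_ball_lt_top).ne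
  have h1 := main_avg S (fun q t s => (volume (A ∩
      {x | x + (y (t, s) q.1 - y (t, s) q.2) ∈ A})).toReal) (fun q =>
      (auto_continuous A hA hfin).comp
        (((continuous_apply q.1).comp hyc).sub ((continuous_apply q.2).comp hyc)))
    ρ θ _ hρ.le hθ0.le (fun t ht s hs => main_pigeon A hA R hR (y (t, s)) L fun i =>
      (norm_le_pi_norm _ i).trans (hL (t, s) ⟨⟨by linarith [ht.1], by linarith [ht.2]⟩,
        ⟨hs.1, hs.2.trans (min_le_left _ _)⟩⟩))
  have h8 : (0 : ℝ) ≤ (volume A).toReal := ENNReal.toReal_nonneg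
  have h2 : ∀ q ∈ S, ∫ t in (-ρ)..ρ, ∫ s in (0 : ℝ)..θ, (volume (A ∩
      {x | x + (y (t, s) q.1 - y (t, s) q.2) ∈ A})).toReal ≤
        2 * θ * (8 * r) * ((N + 1) * (volume A).toReal) := by
    rintro ⟨i, j⟩ hq
    have hij : i < j := (Finset.mem_filter.1 hq).2
    obtain ⟨H, hHc, hH, hH'⟩ := hK' K hd i j hij
    have hk1 : (1 : ℝ) ≤ (j : ℕ) - (i : ℕ) := by
      have : (i : ℕ) + 1 ≤ (j : ℕ) := hij
      have : ((i : ℕ) : ℝ) + 1 ≤ (j : ℕ) := by exact_mod_cast this
      linarith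
    have hk2 : ((j : ℕ) : ℝ) - (i : ℕ) ≤ N := by
      have h3 : ((j : ℕ) : ℝ) ≤ N := by exact_mod_cast j.2.le
      have h4 : (0 : ℝ) ≤ (i : ℕ) := Nat.cast_nonneg _
      linarith
    have hl := hlam' i j hij
    have hN : (0 : ℝ) ≤ N := Nat.cast_nonneg _
    have hr2 : 0 < r ^ 2 := by positivity
    have h3 := key_strip A hA hfin (p i - p j) (⟪e, p i - p j⟫ • f) e H ρ r
      ⟪e, p i - p j⟫ ⟪f, p i - p j⟫ θ ((j : ℕ) - (i : ℕ)) hHc hH hr0 (min_le_left _ _)
      (hmono i j hij) hθ0 (by nlinarith) hk1 (fun t ht => (hH' t ht).1) (fun t ht => by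
        have h4 := (hH' t ⟨by linarith [ht.1], by linarith [ht.2]⟩).2
        have h5 : A ∩ {x | x + (p i - p j + t • (⟪e, p i - p j⟫ • f) + H t • e) ∈ A} = ∅ :=
          eq_empty_of_forall_notMem fun x hx => hav _ hx.2 x hx.1 (by rwa [add_sub_cancel_left])
        rw [h5, measure_empty])
    have e1 : ∀ t s : ℝ, y (t, s) i - y (t, s) j = p i - p j + t • (⟪e, p i - p j⟫ • f) +
        ((((j : ℕ) : ℝ) - (i : ℕ)) * s - ⟪f, p i - p j⟫ * t - ⟪e, p i - p j⟫ * t ^ 2) • e := by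
      intro t s
      simp only [y, inner_sub_right]
      module
    simp only [e1]
    refine h3.trans ?_
    have h7 : 16 * ((((j : ℕ) : ℝ) - (i : ℕ) + 1) * θ) / (⟪e, p i - p j⟫ * r) ≤ 4 * r := by
      rw [div_le_iff₀ (mul_pos (hmono i j hij) hr0)]
      nlinarith
    have h9 : (4 * r + 16 * ((((j : ℕ) : ℝ) - (i : ℕ) + 1) * θ) / (⟪e, p i - p j⟫ * r)) *
        (volume A).toReal ≤ 8 * r * (volume A).toReal :=
      mul_le_mul_of_nonneg_right (by linarith) h8
    have h10 : 2 * ((((j : ℕ) : ℝ) - (i : ℕ) + 1) * θ) ≤ 2 * ((N + 1) * θ) := by nlinarith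
    calc _ ≤ 2 * ((((j : ℕ) : ℝ) - (i : ℕ) + 1) * θ) * (8 * r * (volume A).toReal) :=
          mul_le_mul_of_nonneg_left h9 (by nlinarith)
      _ ≤ 2 * ((N + 1) * θ) * (8 * r * (volume A).toReal) :=
          mul_le_mul_of_nonneg_right h10 (by positivity)
      _ = _ := by ring
  have h3 := h1.trans (Finset.sum_le_card_nsmul _ _ _ h2)
  rw [nsmul_eq_mul] at h3
  have h4 : (S.card : ℝ) * (2 * θ * (8 * r) * ((N + 1) * (volume A).toReal)) =
      2 * θ * (8 * r * B * (volume A).toReal) := by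
    rw [hB]; ring
  rw [h4] at h3
  have h5 : 2 * θ * (8 * r * B * (volume A).toReal) ≤ 2 * θ * (ρ * η * (volume A).toReal) :=
    mul_le_mul_of_nonneg_left (mul_le_mul_of_nonneg_right hrB h8) (by positivity)
  have h6 : 2 * ρ * θ * (N * (volume A).toReal - (volume (ball (0 : E) (R + L))).toReal) ≤
      2 * ρ * θ * (η * (volume A).toReal) := by linarith
  have h7 := le_of_mul_le_mul_left h6 (by positivity)
  linarith

theorem main_ratio (L q : ℝ) (hq : 1 < q) : ∀ᶠ R : ℝ in Filter.atTop,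
    (volume (ball (0 : E) (R + L))).toReal ≤ q * (volume (ball (0 : E) R)).toReal := by
  have h1 : Filter.Tendsto (fun R : ℝ => (1 + L / R) ^ Module.finrank ℝ E) Filter.atTop
      (nhds ((1 + 0) ^ Module.finrank ℝ E)) :=
    (tendsto_const_nhds.add (tendsto_const_nhds.div_atTop Filter.tendsto_id)).pow _
  rw [add_zero, one_pow] at h1
  filter_upwards [h1.eventually (Iic_mem_nhds hq), Filter.eventually_gt_atTop 0,
    Filter.eventually_gt_atTop (-L)] with R h2 h3 h4
  have h5 : 0 < R + L := by linarith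
  rw [Measure.addHaar_ball_of_pos _ _ h5, Measure.addHaar_ball_of_pos _ _ h3, ENNReal.toReal_mul,
    ENNReal.toReal_mul, ENNReal.toReal_ofReal (by positivity),
    ENNReal.toReal_ofReal (by positivity), ← mul_assoc]
  refine mul_le_mul_of_nonneg_right ?_ ENNReal.toReal_nonneg
  have e : R + L = (1 + L / R) * R := by field_simp
  rw [e, mul_pow]
  exact mul_le_mul_of_nonneg_right h2 (by positivity)

theorem main_colour {m : ℕ} (F : Set E) (κ : ℝ) (hκ : m * κ < 1)
    (h : ∀ A : Set E, NullMeasurableSet A volume → (∀ x ∈ A, ∀ y ∈ A, x - y ∉ F) →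
      ∀ᶠ R : ℝ in Filter.atTop,
        (volume (A ∩ ball 0 R)).toReal ≤ κ * (volume (ball (0 : E) R)).toReal)
    (c : E → Fin m) (hc : ∀ j, NullMeasurableSet (c ⁻¹' {j}) volume) :
    ∃ x y, x - y ∈ F ∧ c x = c y := by
  by_contra hcon
  push Not at hcon
  obtain ⟨R, h1, h2⟩ := ((Filter.eventually_all.2 fun j => h _ (hc j) fun x hx y hy hxy =>
    hcon x y hxy ((hx : _ = j).trans (hy : _ = j).symm)).and (Filter.eventually_gt_atTop 0)).exists
  have hfin : ∀ j : Fin m, volume (c ⁻¹' {j} ∩ ball 0 R) ≠ ⊤ := fun j =>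
    ((measure_mono inter_subset_right).trans_lt measure_ball_lt_top).ne
  have h3 : volume (ball (0 : E) R) ≤ ∑ j : Fin m, volume (c ⁻¹' {j} ∩ ball 0 R) :=
    le_trans (measure_mono (show ball (0 : E) R ⊆ ⋃ j : Fin m, c ⁻¹' {j} ∩ ball 0 R from
      fun x hx => mem_iUnion.2 ⟨c x, rfl, hx⟩)) (measure_iUnion_fintype_le _ _)
  have h4 := ENNReal.toReal_mono (ENNReal.sum_ne_top.2 fun j _ => hfin j) h3
  rw [ENNReal.toReal_sum fun j _ => hfin j] at h4
  have h5 := h4.trans (Finset.sum_le_sum fun j _ => h1 j)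
  rw [Finset.sum_const, Finset.card_univ, Fintype.card_fin, nsmul_eq_mul] at h5
  have h6 : 0 < (volume (ball (0 : E) R)).toReal :=
    ENNReal.toReal_pos (measure_ball_pos _ _ h2).ne' measure_ball_lt_top.ne
  nlinarith

theorem main_euclid (n : ℕ) (hn : 1 ≤ n) (hE : Module.finrank ℝ E = n + 1) (ε : ℝ) (hε : 0 < ε) :
    ∃ O : Set (Body E), IsOpen O ∧ ¬ IsMeagre O ∧ ∀ K ∈ O,
      ∀ A : Set E, NullMeasurableSet A volume →
        (∀ x ∈ A, ∀ y ∈ A, x - y ∉ frontier (K.1 : Set E)) →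
        ∀ᶠ R : ℝ in Filter.atTop, (volume (A ∩ ball 0 R)).toReal ≤
          (1 / (2 ^ n + 1) + ε) * (volume (ball (0 : E) R)).toReal := by
  obtain ⟨p, hac, hmono⟩ := exists_acute n hn
  let φ : EuclideanSpace ℝ (Fin (n + 1)) ≃ₗᵢ[ℝ] E :=
    ((stdOrthonormalBasis ℝ E).reindex (finCongr hE)).repr.symm
  have h01 : (0 : Fin (n + 1)) ≠ ⟨1, by omega⟩ := by
    intro h
    have := congrArg Fin.val h
    simp at this
  have hM : (0 : ℝ) < 2 ^ n := by positivity
  set κ : ℝ := 1 / (2 ^ n + 1) + ε with hκ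
  have hκ0 : 1 / ((2 : ℝ) ^ n + 1) < κ := by linarith
  have hκ2 : 1 < κ * (2 ^ n + 1) := (div_lt_iff₀ (by positivity)).1 hκ0
  have hκpos : 0 < κ := lt_trans (by positivity) hκ0
  set η : ℝ := (κ * (2 ^ n + 1) - 1) / (2 * κ) with hη
  have hη0 : 0 < η := div_pos (by linarith) (by positivity)
  have hη1 : κ * η = (κ * (2 ^ n + 1) - 1) / 2 := by rw [hη]; field_simp
  obtain ⟨K₀, δ, L, hδ, hK⟩ := main_open (fun i => φ (p i)) (φ (EuclideanSpace.single 0 1))
    (φ (EuclideanSpace.single ⟨1, by omega⟩ 1)) (by rw [φ.inner_map_map]; simp)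
    (by rw [φ.inner_map_map]; simp)
    (by rw [φ.inner_map_map, EuclideanSpace.inner_single_left]; simp [h01])
    (fun i j k hj hk => by
      rw [← map_sub, ← map_sub, φ.inner_map_map]
      exact hac i j k hj hk)
    (fun i j hij => by
      rw [← map_sub, φ.inner_map_map, EuclideanSpace.inner_single_left]
      simpa using hmono i j hij) η hη0
  have := baire_body (E := E)
  refine ⟨ball K₀ δ, isOpen_ball, not_isMeagre_of_isOpen isOpen_ball ⟨K₀, mem_ball_self hδ⟩,
    fun K hK' A hA hav => ?_⟩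
  filter_upwards [main_ratio (E := E) L (κ * (2 ^ n + 1 - η)) (by linarith)] with R hR
  have h1 := (hK K hK' (A ∩ ball 0 R) (hA.inter measurableSet_ball.nullMeasurableSet)
    (fun x hx y hy => hav x hx.1 y hy.1) R inter_subset_right).trans hR
  push_cast at h1
  have h2 : (0 : ℝ) < 2 ^ n + 1 - η := by
    by_contra hneg
    have := mul_nonneg hκpos.le (neg_nonneg.2 (not_lt.1 hneg))
    linarith
  rw [mul_comm κ, mul_assoc] at h1
  exact le_of_mul_le_mul_left h1 h2

end Pool.Agent.Lib.MP_eb34a4_co.MG
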